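import Mathlib

set_option autoImplicit false

namespace Pool.Agent.H310R2.MonicQuad

/-- The norm form `x² + b x y + c y²`. -/
def F (b c x y : ℤ) : ℤ := x ^ 2 + b * x * y + c * y ^ 2

lemma F_mul (b c x y n : ℤ) :
    F b c x y * F b c n 1 = F b c (x * n + b * x + c * y) (y * n - x) := by
  unfold F; ring

lemma F_succ (b c n : ℤ) : F b c n 1 * F b c (n + 1) 1 = F b c (n + F b c n 1) 1 := by
  unfold F; ring

/-- If `ψ(|n² + b n + c|) = 1` for all large `n`, then `ψ(|x² + b x y + c y²|) = 1` for all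
`x ≥ C y`. -/
lemma descent (b c : ℤ) (ψ : ℕ → ℤ) (hmul : ∀ m n, ψ (m * n) = ψ m * ψ n)
    (hval : ∀ n, 0 < n → ψ n = 1 ∨ ψ n = -1) (n₁ : ℤ) (hn₁0 : 0 ≤ n₁)
    (hn₁ : ∀ n : ℤ, n₁ ≤ n → ψ (F b c n 1).natAbs = 1) :
    ∀ y : ℕ, ∀ x : ℤ, (n₁ + |b| + |c| + 1) * y ≤ x → 0 < x → ψ (F b c x y).natAbs = 1 := by
  intro y
  induction y using Nat.strong_induction_on with
  | _ y ih =>
    intro x hx hx0
    rcases Nat.eq_zero_or_pos y with hy | hy
    · subst hy
      have h1 : (F b c x ((0 : ℕ) : ℤ)).natAbs = x.natAbs * x.natAbs := by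
        unfold F
        rw [← Int.natAbs_mul]
        congr 1
        push_cast
        ring
      rw [h1, hmul]
      rcases hval x.natAbs (by omega) with h | h <;> rw [h] <;> norm_num
    · have hyZ : (0 : ℤ) < y := by exact_mod_cast hy
      set n : ℤ := -((-x) / (y : ℤ)) with hn
      have hmod : (y : ℤ) * n - x = (-x) % (y : ℤ) := by
        have := Int.mul_ediv_add_emod (-x) (y : ℤ)
        rw [hn]
        linarith
      have h0 : 0 ≤ (y : ℤ) * n - x := by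
        rw [hmod]; exact Int.emod_nonneg _ hyZ.ne'
      have h1 : (y : ℤ) * n - x < y := by
        rw [hmod]; exact Int.emod_lt_of_pos _ hyZ
      have hnC : n₁ + |b| + |c| + 1 ≤ n := by
        by_contra hcon
        have h2 : n ≤ n₁ + |b| + |c| := by omega
        have h3 : (y : ℤ) * n ≤ y * (n₁ + |b| + |c|) := mul_le_mul_of_nonneg_left h2 hyZ.le
        nlinarith
      have hb := abs_nonneg b
      have hc := abs_nonneg c
      have hfn := hn₁ n (by linarith)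
      have hxy : (y : ℤ) ≤ x := by
        have : (1 : ℤ) * y ≤ (n₁ + |b| + |c| + 1) * y :=
          mul_le_mul_of_nonneg_right (by linarith) hyZ.le
        linarith
      have hX : x ≤ x * n + b * x + c * y := by
        have e1 : |c| + 1 ≤ n + b := by
          have := neg_abs_le b
          linarith
        have e2 : x * (|c| + 1) ≤ x * (n + b) := mul_le_mul_of_nonneg_left e1 hx0.le
        have e3 : -(|c| * y) ≤ c * y := by
          have := neg_abs_le c
          nlinarith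
        have e4 : |c| * y ≤ |c| * x := mul_le_mul_of_nonneg_left hxy hc
        nlinarith
      obtain ⟨y', hy'⟩ := Int.eq_ofNat_of_zero_le h0
      have hlt : y' < y := by
        have : (y' : ℤ) < y := by rw [← hy']; exact h1
        exact_mod_cast this
      have hCy : (n₁ + |b| + |c| + 1) * (y' : ℤ) ≤ x * n + b * x + c * y := by
        have : (n₁ + |b| + |c| + 1) * (y' : ℤ) ≤ (n₁ + |b| + |c| + 1) * (y : ℤ) :=
          mul_le_mul_of_nonneg_left (by exact_mod_cast hlt.le) (by linarith)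
        linarith
      have hI := ih y' hlt (x * n + b * x + c * y) hCy (by linarith)
      have hprod : ψ (F b c x y).natAbs * ψ (F b c n 1).natAbs = 1 := by
        rw [← hmul, ← Int.natAbs_mul, F_mul, hy']
        exact hI
      rw [hfn, mul_one] at hprod
      exact hprod

/-- Large solutions of the Pell equation. -/
lemma pell_large (d : ℤ) (hd0 : 0 < d) (hd : ¬ IsSquare d) :
    ∀ R : ℕ, ∃ A B : ℤ, A ^ 2 - d * B ^ 2 = 1 ∧ (R : ℤ) + 1 ≤ A ∧ (R : ℤ) + 1 ≤ B := by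
  intro R
  induction R with
  | zero =>
    obtain ⟨A, B, h, hB⟩ := Pell.exists_of_not_isSquare hd0 hd
    refine ⟨|A|, |B|, by rw [sq_abs, sq_abs]; exact h, ?_, ?_⟩
    · have : A ≠ 0 := by
        rintro rfl
        have : 0 ≤ d * B ^ 2 := by positivity
        nlinarith
      have := abs_pos.mpr this
      push_cast; omega
    · have := abs_pos.mpr hB
      push_cast; omega
  | succ R ih =>
    obtain ⟨A, B, h, hA, hB⟩ := ih
    have hR : (0 : ℤ) ≤ R := by positivity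
    refine ⟨A ^ 2 + d * B ^ 2, 2 * A * B, ?_, ?_, ?_⟩
    · have : (A ^ 2 + d * B ^ 2) ^ 2 - d * (2 * A * B) ^ 2 = (A ^ 2 - d * B ^ 2) ^ 2 := by ring
      rw [this, h]; norm_num
    · push_cast
      nlinarith [mul_pos hd0 (show (0:ℤ) < B ^ 2 by nlinarith)]
    · push_cast
      nlinarith

lemma exists_root (m : ℕ) (hm : 0 < m) : ∃ Z : ℕ, m ≤ Z ^ 2 ∧ ∀ z : ℕ, z < Z → z ^ 2 < m := by
  refine ⟨Nat.sqrt (m - 1) + 1, ?_, ?_⟩
  · have := Nat.lt_succ_sqrt' (m - 1)
    simp only [Nat.succ_eq_add_one] at this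
    omega
  · intro z hz
    have h1 : z ≤ Nat.sqrt (m - 1) := by omega
    have h2 : z ^ 2 ≤ (Nat.sqrt (m - 1)) ^ 2 := Nat.pow_le_pow_left h1 2
    have h3 := Nat.sqrt_le' (m - 1)
    omega

/-- Bounding the value of the form. -/
lemma Q_cases (p d D k x y z : ℤ) (hp : 0 < p) (hd : 0 < d) (hD : D = d ∨ D = -d)
    (hx : x ^ 2 < p * d) (hy : y ^ 2 < p) (hz : z ^ 2 < d)
    (hk : x ^ 2 - D * y ^ 2 - p * z ^ 2 = p * d * k) :
    x ^ 2 - D * y ^ 2 - p * z ^ 2 = 0 ∨ x ^ 2 - D * y ^ 2 - p * z ^ 2 = -(p * D) := by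
  have hpd : 0 < p * d := mul_pos hp hd
  have hdy : d * y ^ 2 < p * d := by
    have := mul_lt_mul_of_pos_left hy hd
    linarith [mul_comm p d]
  have hpz : p * z ^ 2 < p * d := mul_lt_mul_of_pos_left hz hp
  have hx0 : 0 ≤ x ^ 2 := sq_nonneg x
  have hdy0 : 0 ≤ d * y ^ 2 := by positivity
  have hpz0 : 0 ≤ p * z ^ 2 := by positivity
  rcases hD with hDd | hDd
  · rw [hDd] at hk
    have hk1 : k < 1 := by
      by_contra hcon
      push Not at hcon
      have : p * d * 1 ≤ p * d * k := mul_le_mul_of_nonneg_left hcon hpd.le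
      linarith
    have hk2 : -2 < k := by
      by_contra hcon
      push Not at hcon
      have : p * d * k ≤ p * d * (-2) := mul_le_mul_of_nonneg_left hcon hpd.le
      linarith
    have hk3 : k = 0 ∨ k = -1 := by omega
    rw [hDd]
    rcases hk3 with rfl | rfl
    · left; rw [hk]; ring
    · right; rw [hk]; ring
  · rw [hDd] at hk
    have hk' : x ^ 2 + d * y ^ 2 - p * z ^ 2 = p * d * k := by linarith
    have hk1 : k < 2 := by
      by_contra hcon
      push Not at hcon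
      have : p * d * 2 ≤ p * d * k := mul_le_mul_of_nonneg_left hcon hpd.le
      linarith
    have hk2 : -1 < k := by
      by_contra hcon
      push Not at hcon
      have : p * d * k ≤ p * d * (-1) := mul_le_mul_of_nonneg_left hcon hpd.le
      linarith
    have hk3 : k = 0 ∨ k = 1 := by omega
    rw [hDd]
    rcases hk3 with rfl | rfl
    · left; rw [hk]; ring
    · right; rw [hk]; ring

/-- The pigeonhole step of Legendre's theorem in a special case. -/
lemma legendre_special (D : ℤ) (hD0 : D ≠ 0) (hD : ¬ IsSquare D) (p : ℕ) (hp : p.Prime)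
    (hmod : (D.natAbs : ℤ) ∣ (p : ℤ) - 1) (hlt : D.natAbs < p)
    (hr : ∃ r : ℤ, (p : ℤ) ∣ r ^ 2 - D) :
    ∃ u y w : ℤ, w ≠ 0 ∧ u ^ 2 - D * y ^ 2 = p * w ^ 2 := by
  obtain ⟨r, hr⟩ := hr
  set d : ℕ := D.natAbs with hd
  have hdpos : 0 < d := Int.natAbs_pos.mpr hD0
  have hppos : 0 < p := hp.pos
  have hnd : ¬ p ∣ d := fun h => absurd (Nat.le_of_dvd hdpos h) (by omega)
  have hcop : Nat.Coprime p d := (Nat.Prime.coprime_iff_not_dvd hp).mpr hnd
  -- p * d is not a square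
  have hpd : ∀ s : ℕ, s ^ 2 ≠ p * d := by
    intro s hs
    have h1 : p ∣ s := hp.dvd_of_dvd_pow (hs ▸ Dvd.intro d rfl)
    obtain ⟨k, rfl⟩ := h1
    have h2 : p * (p * k ^ 2) = p * d := by rw [← hs]; ring
    have h3 : p * k ^ 2 = d := Nat.eq_of_mul_eq_mul_left hppos h2
    exact hnd (h3 ▸ Dvd.intro _ rfl)
  obtain ⟨X, hX1, hX2⟩ := exists_root (p * d) (by positivity)
  obtain ⟨Y, hY1, hY2⟩ := exists_root p hppos
  obtain ⟨Z, hZ1, hZ2⟩ := exists_root d hdpos
  have hX1' : p * d < X ^ 2 := lt_of_le_of_ne hX1 (fun h => hpd X h.symm)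
  have hcard : p * d < X * Y * Z := by
    have h0 : p * d ≤ Y ^ 2 * Z ^ 2 := Nat.mul_le_mul hY1 hZ1
    have hpdpos : 0 < p * d := by positivity
    have h1 : (p * d) * (p * d) < X ^ 2 * (Y ^ 2 * Z ^ 2) :=
      lt_of_lt_of_le (Nat.mul_lt_mul_of_pos_right hX1' hpdpos) (Nat.mul_le_mul_left _ h0)
    by_contra hcon
    push Not at hcon
    have h2 : (X * Y * Z) ^ 2 ≤ (p * d) ^ 2 := Nat.pow_le_pow_left hcon 2
    nlinarith
  -- pigeonhole
  have : NeZero p := ⟨hppos.ne'⟩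
  have : NeZero d := ⟨hdpos.ne'⟩
  let S : Finset (ℕ × ℕ × ℕ) := Finset.range X ×ˢ (Finset.range Y ×ˢ Finset.range Z)
  let g : ℕ × ℕ × ℕ → ZMod p × ZMod d := fun t =>
    (((t.1 : ℤ) - r * (t.2.1 : ℤ) : ℤ), ((t.1 : ℤ) - (t.2.2 : ℤ) : ℤ))
  have hlt2 : (Finset.univ : Finset (ZMod p × ZMod d)).card < S.card := by
    rw [Finset.card_univ, Fintype.card_prod, ZMod.card, ZMod.card]
    simp only [S, Finset.card_product, Finset.card_range]
    calc p * d < X * Y * Z := hcard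
      _ = X * (Y * Z) := by ring
  obtain ⟨s, hs, t, ht, hne, hst⟩ := Finset.exists_ne_map_eq_of_card_lt_of_maps_to hlt2
    (fun a _ => Finset.mem_univ (g a))
  simp only [S, Finset.mem_product, Finset.mem_range] at hs ht
  obtain ⟨x1, y1, z1⟩ := s
  obtain ⟨x2, y2, z2⟩ := t
  simp only [g, Prod.mk.injEq] at hst
  obtain ⟨hst1, hst2⟩ := hst
  simp only at hs ht
  rw [ZMod.intCast_eq_intCast_iff_dvd_sub] at hst1 hst2
  set x : ℤ := (x2 : ℤ) - x1 with hx
  set y : ℤ := (y2 : ℤ) - y1 with hy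
  set z : ℤ := (z2 : ℤ) - z1 with hz
  have hpx : (p : ℤ) ∣ x - r * y := by
    have : (x2 : ℤ) - r * y2 - (x1 - r * y1) = x - r * y := by rw [hx, hy]; ring
    rw [← this]; exact hst1
  have hdx : (d : ℤ) ∣ x - z := by
    have : (x2 : ℤ) - z2 - (x1 - z1) = x - z := by rw [hx, hz]; ring
    rw [← this]; exact hst2
  have hsqlt : ∀ (m M a b : ℕ), (∀ z : ℕ, z < M → z ^ 2 < m) → a < M → b < M →
      ((b : ℤ) - a) ^ 2 < m := by
    intro m M a b h ha hb
    have h1 : ((b : ℤ) - a).natAbs < M := by omega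
    have h2 := h _ h1
    have h3 : ((((b : ℤ) - a).natAbs ^ 2 : ℕ) : ℤ) < (m : ℤ) := by exact_mod_cast h2
    rw [Nat.cast_pow, Int.natCast_natAbs, sq_abs] at h3
    exact h3
  have hx2 : x ^ 2 < (p : ℤ) * d := by
    have := hsqlt _ _ x1 x2 hX2 hs.1 ht.1
    push_cast at this
    exact this
  have hy2 : y ^ 2 < (p : ℤ) := hsqlt _ _ y1 y2 hY2 hs.2.1 ht.2.1
  have hz2 : z ^ 2 < (d : ℤ) := hsqlt _ _ z1 z2 hZ2 hs.2.2 ht.2.2
  have hnz : ¬ (x = 0 ∧ y = 0 ∧ z = 0) := by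
    rintro ⟨h1, h2, h3⟩
    apply hne
    rw [hx] at h1
    rw [hy] at h2
    rw [hz] at h3
    have e1 : x1 = x2 := by omega
    have e2 : y1 = y2 := by omega
    have e3 : z1 = z2 := by omega
    rw [e1, e2, e3]
  -- the form
  have hQp : (p : ℤ) ∣ x ^ 2 - D * y ^ 2 - p * z ^ 2 := by
    have e : x ^ 2 - D * y ^ 2 - p * z ^ 2 =
        (x - r * y) * (x + r * y) + (r ^ 2 - D) * y ^ 2 - p * z ^ 2 := by ring
    rw [e]
    exact dvd_sub (dvd_add (Dvd.dvd.mul_right hpx _) (Dvd.dvd.mul_right hr _))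
      (Dvd.intro _ rfl)
  have hdD : (d : ℤ) ∣ D := Int.natAbs_dvd.mpr dvd_rfl
  have hQd : (d : ℤ) ∣ x ^ 2 - D * y ^ 2 - p * z ^ 2 := by
    have e : x ^ 2 - D * y ^ 2 - p * z ^ 2 =
        (x - z) * (x + z) - D * y ^ 2 - ((p : ℤ) - 1) * z ^ 2 := by ring
    rw [e]
    exact dvd_sub (dvd_sub (Dvd.dvd.mul_right hdx _) (Dvd.dvd.mul_right hdD _))
      (Dvd.dvd.mul_right hmod _)
  have hQpd : (p : ℤ) * d ∣ x ^ 2 - D * y ^ 2 - p * z ^ 2 :=
    IsCoprime.mul_dvd (Nat.isCoprime_iff_coprime.mpr hcop) hQp hQd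
  obtain ⟨k, hk⟩ := hQpd
  have hpZ : (0 : ℤ) < p := by exact_mod_cast hppos
  have hdZ : (0 : ℤ) < d := by exact_mod_cast hdpos
  have hpdZ : (0 : ℤ) < (p : ℤ) * d := mul_pos hpZ hdZ
  have hQ : x ^ 2 - D * y ^ 2 - p * z ^ 2 = 0 ∨ x ^ 2 - D * y ^ 2 - p * z ^ 2 = -(p * D) :=
    Q_cases p d D k x y z hpZ hdZ (by rcases Int.natAbs_eq D with h | h <;> [left; right] <;>
      (rw [← hd] at h; exact h)) hx2 hy2 hz2 hk
  have hnosq : ∀ s : ℤ, s ^ 2 ≠ D := fun s hs => hD ⟨s, by rw [← hs]; ring⟩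
  have hnosq2 : ∀ s t : ℤ, s ^ 2 = D * t ^ 2 → t = 0 := by
    intro s t hst
    by_contra ht0
    have h1 : t ^ 2 ∣ s ^ 2 := ⟨D, by rw [hst]; ring⟩
    have h2 : t ∣ s := (Int.pow_dvd_pow_iff (by norm_num)).mp h1
    obtain ⟨m, rfl⟩ := h2
    have h3 : t ^ 2 * m ^ 2 = t ^ 2 * D := by rw [← mul_pow, hst]; ring
    exact hnosq m (mul_left_cancel₀ (pow_ne_zero 2 ht0) h3)
  rcases hQ with hQ | hQ
  · refine ⟨x, y, z, ?_, by linarith⟩
    rintro hz0
    have h1 : x ^ 2 = D * y ^ 2 := by rw [hz0] at hQ; linarith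
    have h2 := hnosq2 x y h1
    apply hnz
    refine ⟨?_, h2, hz0⟩
    rw [h2] at h1
    simpa using h1
  · refine ⟨x * z + D * y, x + y * z, z ^ 2 - D, sub_ne_zero.mpr (hnosq z), ?_⟩
    have h1 : x ^ 2 - D * y ^ 2 = p * (z ^ 2 - D) := by linarith
    have h2 : (x * z + D * y) ^ 2 - D * (x + y * z) ^ 2 = (x ^ 2 - D * y ^ 2) * (z ^ 2 - D) := by
      ring
    rw [h2, h1]; ring

lemma prime_not_isSquare (p : ℕ) (hp : p.Prime) : ¬ IsSquare (p : ℤ) := by
  rintro ⟨s, hs⟩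
  have h1 : ((s.natAbs * s.natAbs : ℕ) : ℤ) = (p : ℤ) := by
    rw [Nat.cast_mul, Int.natCast_natAbs, abs_mul_abs_self]; exact hs.symm
  have h2 : s.natAbs * s.natAbs = p := by exact_mod_cast h1
  have h3 : Nat.Prime (s.natAbs * s.natAbs) := h2 ▸ hp
  rcases Nat.prime_mul_iff.mp h3 with ⟨ha, hb⟩ | ⟨ha, hb⟩
  · rw [hb] at ha; exact Nat.not_prime_one ha
  · rw [hb] at ha; exact Nat.not_prime_one ha

/-- `D` is a square modulo a prime `p ≡ 1 (mod 4|D|)`. -/
lemma exists_sqrt_mod (D : ℤ) (hD0 : D ≠ 0) (p : ℕ) (hp : p.Prime)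
    (hmod : p ≡ 1 [MOD 4 * D.natAbs]) : ∃ r : ℤ, (p : ℤ) ∣ r ^ 2 - D := by
  have hd : 0 < D.natAbs := Int.natAbs_pos.mpr hD0
  have hdvd : 4 * D.natAbs ∣ p - 1 := (Nat.modEq_iff_dvd' hp.one_lt.le).mp hmod.symm
  have hp1 := hp.one_lt
  have hle : 4 * D.natAbs ≤ p - 1 := Nat.le_of_dvd (by omega) hdvd
  have hodd : Odd p := hp.odd_of_ne_two (by omega)
  have hmod1 : p % (4 * D.natAbs) = 1 := by
    have : p % (4 * D.natAbs) = 1 % (4 * D.natAbs) := hmod
    rw [this, Nat.mod_eq_of_lt (by omega)]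
  have hJ : jacobiSym D p = 1 := by
    rw [jacobiSym.mod_right D hodd, hmod1, jacobiSym.one_right]
  have := Fact.mk hp
  rw [← jacobiSym.legendreSym.to_jacobiSym] at hJ
  have hne : ((D : ℤ) : ZMod p) ≠ 0 := by
    intro h
    rw [ZMod.intCast_zmod_eq_zero_iff_dvd] at h
    have := Int.natAbs_dvd_natAbs.mpr h
    rw [Int.natAbs_natCast] at this
    have := Nat.le_of_dvd hd this
    omega
  obtain ⟨r, hr⟩ := (legendreSym.eq_one_iff p hne).mp hJ
  refine ⟨r.val, ?_⟩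
  rw [← ZMod.intCast_zmod_eq_zero_iff_dvd]
  push_cast
  rw [ZMod.natCast_zmod_val, hr]
  ring

/-- For a prime `p ≡ 1 (mod 4|D|)` the equation `U² - D Y² = p W²` has solutions with `W ≠ 0`
and `U / Y` arbitrarily large. -/
lemma key (D : ℤ) (hD0 : D ≠ 0) (p : ℕ) (hp : p.Prime)
    (hmod : p ≡ 1 [MOD 4 * D.natAbs]) (R : ℤ) :
    ∃ U Y W : ℤ, 0 < Y ∧ W ≠ 0 ∧ R * Y ≤ U ∧ U ^ 2 - D * Y ^ 2 = p * W ^ 2 := by
  have hpZ : (0 : ℤ) < p := by exact_mod_cast hp.pos
  have hpsq := prime_not_isSquare p hp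
  by_cases hD : IsSquare D
  · obtain ⟨h, hh⟩ := hD
    obtain ⟨A, B, hAB, hA, hB⟩ := pell_large p hpZ hpsq R.natAbs
    have hh0 : h ≠ 0 := by rintro rfl; exact hD0 (by rw [hh]; ring)
    have hh1 : 1 ≤ |h| := Int.one_le_abs hh0
    have hRn : R ≤ (R.natAbs : ℤ) := Int.le_natAbs
    have hR0 : (0 : ℤ) ≤ (R.natAbs : ℤ) := by positivity
    refine ⟨|h| * (A ^ 2 + p * B ^ 2), 1, 2 * |h| * A * B, one_pos, ?_, ?_, ?_⟩
    · have : 0 < 2 * |h| * A * B := by
        have : 0 < A := by linarith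
        have : 0 < B := by linarith
        positivity
      exact this.ne'
    · have h1 : R ≤ A ^ 2 := by nlinarith
      have h2 : A ^ 2 ≤ A ^ 2 + p * B ^ 2 := by
        have : 0 ≤ (p : ℤ) * B ^ 2 := by positivity
        linarith
      have h3 : 1 * (A ^ 2 + p * B ^ 2) ≤ |h| * (A ^ 2 + p * B ^ 2) :=
        mul_le_mul_of_nonneg_right hh1 (by positivity)
      linarith
    · have e1 : |h| ^ 2 = D := by rw [sq_abs, hh]; ring
      have e2 : (|h| * (A ^ 2 + p * B ^ 2)) ^ 2 - D * 1 ^ 2 =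
          |h| ^ 2 * ((A ^ 2 + p * B ^ 2) ^ 2 - (A ^ 2 - p * B ^ 2) ^ 2) := by
        rw [hAB, ← e1]; ring
      rw [e2]; ring
  · have hd : 0 < D.natAbs := Int.natAbs_pos.mpr hD0
    have hdvd : 4 * D.natAbs ∣ p - 1 := (Nat.modEq_iff_dvd' hp.one_lt.le).mp hmod.symm
    have hp1 := hp.one_lt
    have hle : 4 * D.natAbs ≤ p - 1 := Nat.le_of_dvd (by omega) hdvd
    have hmod' : (D.natAbs : ℤ) ∣ (p : ℤ) - 1 := by
      have h1 : D.natAbs ∣ p - 1 := (Dvd.intro_left 4 rfl).trans hdvd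
      have h2 : ((D.natAbs : ℕ) : ℤ) ∣ ((p - 1 : ℕ) : ℤ) := by exact_mod_cast h1
      rw [Nat.cast_sub hp1.le] at h2
      exact_mod_cast h2
    obtain ⟨u, y, w, hw, huyw⟩ := legendre_special D hD0 hD p hp hmod' (by omega)
      (exists_sqrt_mod D hD0 p hp hmod)
    have hy : y ≠ 0 := by
      rintro rfl
      have h1 : u ^ 2 = p * w ^ 2 := by linarith
      have h2 : w ^ 2 ∣ u ^ 2 := ⟨p, by rw [h1]; ring⟩
      have h3 : w ∣ u := (Int.pow_dvd_pow_iff (by norm_num)).mp h2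
      obtain ⟨m, rfl⟩ := h3
      have h4 : w ^ 2 * m ^ 2 = w ^ 2 * p := by rw [← mul_pow, h1]; ring
      exact hpsq ⟨m, by rw [← mul_left_cancel₀ (pow_ne_zero 2 hw) h4]; ring⟩
    obtain ⟨A, B, hAB, hA, hB⟩ := pell_large p hpZ hpsq (R.natAbs * y.natAbs)
    have hRn : R ≤ |R| := le_abs_self R
    have hw1 : 1 ≤ |w| := Int.one_le_abs hw
    have hy1 : 1 ≤ |y| := Int.one_le_abs hy
    push_cast at hA hB
    have hRy : 0 ≤ |R| * |y| := by positivity
    refine ⟨|u| * A + p * |w| * B, |y|, |u| * B + |w| * A, by linarith, ?_, ?_, ?_⟩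
    · have h1 : 0 ≤ |u| * B := mul_nonneg (abs_nonneg _) (by linarith)
      have h2 : 0 < |w| * A := mul_pos (by linarith) (by linarith)
      linarith
    · have h1 : 0 ≤ |u| * A := mul_nonneg (abs_nonneg _) (by linarith)
      have h2 : R * |y| ≤ |R| * |y| := mul_le_mul_of_nonneg_right hRn (abs_nonneg _)
      have h3 : 1 ≤ (p : ℤ) * |w| := by nlinarith
      have h4 : 1 * B ≤ p * |w| * B := mul_le_mul_of_nonneg_right h3 (by linarith)
      linarith
    · have e : (|u| * A + p * |w| * B) ^ 2 - p * (|u| * B + |w| * A) ^ 2 =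
          (|u| ^ 2 - p * |w| ^ 2) * (A ^ 2 - p * B ^ 2) := by ring
      rw [hAB, sq_abs, sq_abs] at e
      have e2 : D * |y| ^ 2 = u ^ 2 - p * w ^ 2 := by rw [sq_abs]; linarith
      rw [e2]
      linarith

/-- A completely multiplicative `±1`-valued function that is `-1` at some prime
`p ≡ 1 (mod 4|b² - 4c|)` is not eventually `1` along `n² + b n + c`. -/
theorem not_eventually_one (b c : ℤ) (hD : b ^ 2 - 4 * c ≠ 0) (ψ : ℕ → ℤ)
    (hmul : ∀ m n, ψ (m * n) = ψ m * ψ n) (hval : ∀ n, 0 < n → ψ n = 1 ∨ ψ n = -1)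
    (p : ℕ) (hp : p.Prime) (hmod : p ≡ 1 [MOD 4 * (b ^ 2 - 4 * c).natAbs]) (hψp : ψ p = -1)
    (n₁ : ℤ) (hn₁ : ∀ n : ℤ, n₁ ≤ n → ψ (F b c n 1).natAbs = 1) : False := by
  have h := descent b c ψ hmul hval (max n₁ 0) (le_max_right _ _)
    (fun n hn => hn₁ n (le_trans (le_max_left _ _) hn))
  set C : ℤ := max n₁ 0 + |b| + |c| + 1 with hC
  have hC1 : 1 ≤ C := by
    have := le_max_right n₁ 0
    have := abs_nonneg b
    have := abs_nonneg c
    linarith
  obtain ⟨U, Y, W, hY, hW, hR, hU⟩ := key (b ^ 2 - 4 * c) hD p hp hmod (2 * C + |b|)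
  have hYn : (((2 * Y).toNat : ℕ) : ℤ) = 2 * Y := Int.toNat_of_nonneg (by linarith)
  have hbY : b * Y ≤ |b| * Y := mul_le_mul_of_nonneg_right (le_abs_self b) hY.le
  have hCY : 0 < C * Y := mul_pos (by linarith) hY
  have h1 := h (2 * Y).toNat (U - b * Y) (by rw [hYn]; nlinarith) (by nlinarith)
  rw [hYn] at h1
  have h2 : F b c (U - b * Y) (2 * Y) = p * W ^ 2 := by
    rw [← hU]; unfold F; ring
  have h3 : (F b c (U - b * Y) (2 * Y)).natAbs = p * (W.natAbs * W.natAbs) := by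
    rw [h2, Int.natAbs_mul, Int.natAbs_natCast, Int.natAbs_pow, sq]
  rw [h3, hmul, hmul, hψp] at h1
  rcases hval W.natAbs (Int.natAbs_pos.mpr hW) with h4 | h4 <;> rw [h4] at h1 <;> norm_num at h1

/-- The same function is not eventually `-1` either. -/
theorem not_eventually_neg_one (b c : ℤ) (ψ : ℕ → ℤ)
    (hmul : ∀ m n, ψ (m * n) = ψ m * ψ n)
    (n₁ : ℤ) (hn₁ : ∀ n : ℤ, n₁ ≤ n → ψ (F b c n 1).natAbs = -1) : False := by
  set n : ℤ := max n₁ 0 + |b| + |c| + 1 with hn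
  have h0 := le_max_right n₁ 0
  have h0' := le_max_left n₁ 0
  have hb := abs_nonneg b
  have hc := abs_nonneg c
  have hF : 0 ≤ F b c n 1 := by
    unfold F
    have h1 : |c| + 1 ≤ n + b := by
      have := neg_abs_le b
      linarith
    have h2 : n * (|c| + 1) ≤ n * (n + b) := mul_le_mul_of_nonneg_left h1 (by linarith)
    have h3 := neg_abs_le c
    nlinarith
  have h1 := hn₁ n (by linarith)
  have h2 := hn₁ (n + 1) (by linarith)
  have h3 := hn₁ (n + F b c n 1) (by linarith)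
  rw [← F_succ, Int.natAbs_mul, hmul, h1, h2] at h3
  norm_num at h3

/-- The Liouville function, as an integer valued function with value `0` at `0`. -/
def lam (n : ℕ) : ℤ := if n = 0 then 0 else (-1) ^ (ArithmeticFunction.cardFactors n)

lemma lam_mul (m n : ℕ) : lam (m * n) = lam m * lam n := by
  unfold lam
  rcases Nat.eq_zero_or_pos m with rfl | hm
  · simp
  rcases Nat.eq_zero_or_pos n with rfl | hn
  · simp
  rw [if_neg (by positivity), if_neg hm.ne', if_neg hn.ne',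
    ArithmeticFunction.cardFactors_mul hm.ne' hn.ne', pow_add]

lemma lam_val (n : ℕ) (hn : 0 < n) : lam n = 1 ∨ lam n = -1 := by
  unfold lam
  rw [if_neg hn.ne']
  exact neg_one_pow_eq_or ℤ _

/-- Both signs of the Liouville function at a monic quadratic polynomial. -/
theorem monic (b c : ℤ) (hD : b ^ 2 - 4 * c ≠ 0) (ε : ℤ) (hε : ε = 1 ∨ ε = -1) (N : ℤ) :
    ∃ n : ℤ, N ≤ n ∧ lam (F b c n 1).natAbs = ε := by
  have hd : 0 < (b ^ 2 - 4 * c).natAbs := Int.natAbs_pos.mpr hD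
  obtain ⟨p, hp, -, hmod⟩ := Nat.exists_prime_gt_modEq_one
    (k := 4 * (b ^ 2 - 4 * c).natAbs) 1 (by positivity)
  have hlp : lam p = -1 := by
    unfold lam
    rw [if_neg hp.ne_zero, ArithmeticFunction.cardFactors_apply_prime hp, pow_one]
  by_contra hcon
  push Not at hcon
  -- for large n the value is nonzero
  have hpos : ∀ n : ℤ, |b| + |c| + 1 ≤ n → 0 < F b c n 1 := by
    intro n hn
    have hb := abs_nonneg b
    have hc := abs_nonneg c
    unfold F
    have h1 : |c| + 1 ≤ n + b := by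
      have := neg_abs_le b
      linarith
    have h2 : n * (|c| + 1) ≤ n * (n + b) := mul_le_mul_of_nonneg_left h1 (by linarith)
    have h3 := neg_abs_le c
    nlinarith
  have hv : ∀ n : ℤ, |b| + |c| + 1 ≤ n → lam (F b c n 1).natAbs = 1 ∨
      lam (F b c n 1).natAbs = -1 := fun n hn =>
    lam_val _ (Int.natAbs_pos.mpr (hpos n hn).ne')
  rcases hε with rfl | rfl
  · refine not_eventually_neg_one b c lam lam_mul (max N (|b| + |c| + 1)) (fun n hn => ?_)
    rcases hv n (le_trans (le_max_right _ _) hn) with h | h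
    · exact absurd h (hcon n (le_trans (le_max_left _ _) hn))
    · exact h
  · refine not_eventually_one b c hD lam lam_mul lam_val p hp hmod hlp
      (max N (|b| + |c| + 1)) (fun n hn => ?_)
    rcases hv n (le_trans (le_max_right _ _) hn) with h | h
    · exact h
    · exact absurd h (hcon n (le_trans (le_max_left _ _) hn))

end Pool.Agent.H310R2.MonicQuad
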