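import Mathlib
import Pool.Agent.H310R2.MonicQuad

set_option autoImplicit false

namespace Pool.Agent.H310R2.MonicQuad

/-- Liouville function at the norm form. -/
def Ph (b c x y : ℤ) : ℤ := lam (F b c x y).natAbs

/-- Liouville function at the monic quadratic. -/
def Lq (b c n : ℤ) : ℤ := lam (F b c n 1).natAbs

lemma F_pos (b c x y : ℤ) (hy : 0 ≤ y) (hx : (|b| + |c| + 1) * y ≤ x) (hx0 : 0 < x) :
    0 < F b c x y := by
  have hb := abs_nonneg b
  have hc := abs_nonneg c
  have h1 : -(|b| * (x * y)) ≤ b * (x * y) := by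
    have := neg_abs_le b
    have h2 : 0 ≤ x * y := mul_nonneg hx0.le hy
    nlinarith
  have h2 : -(|c| * (x * y)) ≤ c * y ^ 2 := by
    have h3 := neg_abs_le c
    have h4 : y ≤ x := by nlinarith
    have h5 : |c| * (y * y) ≤ |c| * (x * y) :=
      mul_le_mul_of_nonneg_left (mul_le_mul_of_nonneg_right h4 hy) hc
    nlinarith [sq_nonneg y]
  have h3 : (|b| + |c| + 1) * y * x ≤ x * x := mul_le_mul_of_nonneg_right hx hx0.le
  unfold F
  rcases eq_or_lt_of_le hy with h | h
  · rw [← h]; nlinarith [mul_pos hx0 hx0]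
  · nlinarith [mul_pos hx0 h]

lemma lam_sq_mul (m n : ℕ) (hm : m ≠ 0) : lam (m ^ 2 * n) = lam n := by
  rw [lam_mul, sq, lam_mul]
  rcases lam_val m (Nat.pos_of_ne_zero hm) with h | h <;> rw [h] <;> norm_num

lemma Ph_val (b c x y : ℤ) (h : F b c x y ≠ 0) : Ph b c x y = 1 ∨ Ph b c x y = -1 :=
  lam_val _ (Int.natAbs_pos.mpr h)

lemma Ph_scale (b c g x y : ℤ) (hg : g ≠ 0) : Ph b c (g * x) (g * y) = Ph b c x y := by
  have h : F b c (g * x) (g * y) = g ^ 2 * F b c x y := by unfold F; ring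
  unfold Ph
  rw [h, Int.natAbs_mul, Int.natAbs_pow, lam_sq_mul _ _ (Int.natAbs_ne_zero.mpr hg)]

lemma Ph_zero (b c x : ℤ) (hx : x ≠ 0) : Ph b c x 0 = 1 := by
  have h : F b c x 0 = x ^ 2 * 1 := by unfold F; ring
  unfold Ph
  rw [h, Int.natAbs_mul, Int.natAbs_pow, lam_sq_mul _ _ (Int.natAbs_ne_zero.mpr hx)]
  simp [lam]

/-- The dilated edge relation. -/
lemma edgeM (b c n₁ M β e x' y' x y : ℤ) (hn₁ : 0 ≤ n₁) (hM : 1 ≤ M) (hβ : 0 ≤ β)
    (he : M * e = F b c β 1) (hdet : x' * y - y' * x = 1) (hy' : 0 ≤ y') (hx'0 : 0 < x')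
    (hx' : (n₁ + |b| + |c| + 1) * y' ≤ x') (hy : 1 ≤ y)
    (hx : (n₁ + |b| + |c| + 1) * y ≤ x) :
    n₁ ≤ M * x' * x + β * (x' * y + y' * x) + b * y' * x + y' * y * e ∧
      Ph b c (M * x' + β * y') y' * Ph b c (M * x + β * y) y =
        Lq b c (M * x' * x + β * (x' * y + y' * x) + b * y' * x + y' * y * e) := by
  have hb := abs_nonneg b
  have hc := abs_nonneg c
  have hxy : y ≤ x := by nlinarith
  have hx0 : 0 < x := by linarith
  constructor
  · rcases eq_or_lt_of_le hy' with h | h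
    · rw [← h] at hdet ⊢
      have h1 : x' * y = 1 := by linarith
      have h2 : x' = 1 := by nlinarith
      have h3 : y = 1 := by rw [h2] at h1; linarith
      rw [h2, h3]
      rw [h3] at hx
      nlinarith
    · -- y' ≥ 1
      have h' : 1 ≤ y' := h
      have he' : -(|b| * β + |c|) ≤ e := by
        have h1 : -(|b| * β + |c|) ≤ M * e := by
          rw [he]; unfold F
          have h2 := neg_abs_le b
          have h3 := neg_abs_le c
          have h4 : -(|b| * β) ≤ b * β := by nlinarith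
          nlinarith [sq_nonneg β]
        by_contra hcon
        push Not at hcon
        have h2 : 0 ≤ |b| * β + |c| := by positivity
        have h3 : e ≤ 0 := by linarith
        have h4 : M * e ≤ 1 * e := mul_le_mul_of_nonpos_right hM h3
        linarith
      have hyy : 0 ≤ y' * y := by positivity
      have e1 : y' * y * (-(|b| * β + |c|)) ≤ y' * y * e := mul_le_mul_of_nonneg_left he' hyy
      have e2 : -(|b| * (y' * x)) ≤ b * (y' * x) := by
        have h2 := neg_abs_le b
        have h3 : 0 ≤ y' * x := by positivity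
        nlinarith
      have e3 : x' * x ≤ M * (x' * x) := by
        have h3 : 0 ≤ x' * x := by positivity
        nlinarith
      have e4 : (n₁ + |b| + |c| + 1) * y' * x ≤ x' * x := mul_le_mul_of_nonneg_right hx' hx0.le
      have e5 : |c| * (y' * y) ≤ |c| * (y' * x) :=
        mul_le_mul_of_nonneg_left (mul_le_mul_of_nonneg_left hxy hy') hc
      have e6 : |b| * (y' * y) ≤ y' * x := by
        have h1 : |b| * y ≤ x := by nlinarith
        have := mul_le_mul_of_nonneg_left h1 hy'
        nlinarith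
      have e7 : β * (|b| * (y' * y)) ≤ β * (y' * x) := mul_le_mul_of_nonneg_left e6 hβ
      have e8 : 0 ≤ β * (x' * y) := by positivity
      have e9 : n₁ * 1 ≤ n₁ * (y' * x) := by
        have : 1 ≤ y' * x := by nlinarith
        exact mul_le_mul_of_nonneg_left this hn₁
      have e10 : 0 ≤ y' * x := by positivity
      nlinarith
  · unfold Ph Lq
    rw [← lam_mul, ← Int.natAbs_mul]
    have h1 : F b c (M * x' + β * y') y' * F b c (M * x + β * y) y =
        M ^ 2 * F b c (M * x' * x + β * (x' * y + y' * x) + b * y' * x + y' * y * e) 1 := by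
      have h2 : F b c (M * x' + β * y') y' * F b c (M * x + β * y) y =
          F b c (M * (M * x' * x + β * (x' * y + y' * x) + b * y' * x) +
            y' * y * F b c β 1) (M * (x' * y - y' * x)) := by
        unfold F; ring
      rw [h2, hdet, ← he]
      unfold F; ring
    rw [h1, Int.natAbs_mul, Int.natAbs_pow, lam_sq_mul _ _ (by omega)]

/-- Farey parents. -/
lemma parent (x y : ℤ) (h : IsCoprime x y) (hy : 1 ≤ y) :
    ∃ x' y' : ℤ, 0 ≤ y' ∧ y' < y ∧ x' * y - y' * x = 1 := by
  obtain ⟨u, v, huv⟩ := h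
  -- u * x + v * y = 1
  have hypos : 0 < y := by linarith
  set y' := (-u) % y with hy'
  have h0 : 0 ≤ y' := Int.emod_nonneg _ hypos.ne'
  have h1 : y' < y := Int.emod_lt_of_pos _ hypos
  have h2 : y ∣ 1 + y' * x := by
    have h3 : y ∣ y' - (-u) := by
      rw [hy']
      exact (Int.dvd_sub_self_of_emod_eq rfl)
    have h4 : 1 + y' * x = (y' - (-u)) * x + v * y := by linarith [huv]
    rw [h4]
    exact dvd_add (Dvd.dvd.mul_right h3 _) (Dvd.intro_left _ rfl)
  obtain ⟨x', hx'⟩ := h2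
  exact ⟨x', y', h0, h1, by linarith⟩

/-- The periodicity hypothesis. -/
def Per (b c n₁ Q : ℤ) : Prop :=
  ∀ m n : ℤ, n₁ ≤ m → n₁ ≤ n → Q ∣ m - n → Lq b c m = Lq b c n

lemma cone_parent (C x' y' x y : ℤ) (hC : 1 ≤ C) (hdet : x' * y - y' * x = 1) (hy' : 0 ≤ y')
    (hy : 1 ≤ y) (hx : C * y ≤ x) : C * y' ≤ x' ∧ 0 < x' := by
  have h1 : y' * (C * y) ≤ y' * x := mul_le_mul_of_nonneg_left hx hy'
  have h2 : C * y' * y < x' * y := by nlinarith
  have h3 : C * y' < x' := lt_of_mul_lt_mul_right h2 (by linarith)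
  have h4 : 0 ≤ C * y' := by positivity
  exact ⟨h3.le, by linarith⟩

/-- Dilation invariance. -/
lemma dilate (b c n₁ Q M β e : ℤ) (hn₁ : 0 ≤ n₁) (hper : Per b c n₁ Q) (hM : 1 ≤ M)
    (hβ : 0 ≤ β) (he : M * e = F b c β 1) (hQM : Q ∣ M - 1) (hQβ : Q ∣ β) :
    ∀ y : ℕ, ∀ x : ℤ, IsCoprime x (y : ℤ) → (n₁ + |b| + |c| + 1) * y ≤ x → 0 < x →
      Ph b c (M * x + β * y) y = Ph b c x y := by
  intro y
  induction y using Nat.strong_induction_on with
  | _ y ih =>
    intro x hcop hx hx0
    have hb := abs_nonneg b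
    have hc := abs_nonneg c
    rcases Nat.eq_zero_or_pos y with hy | hy
    · subst hy
      push_cast
      rw [mul_zero, add_zero, Ph_zero _ _ _ (by positivity), Ph_zero _ _ _ hx0.ne']
    · have hy1 : (1 : ℤ) ≤ y := by exact_mod_cast hy
      obtain ⟨x', y', hy'0, hy'y, hdet⟩ := parent x y hcop hy1
      obtain ⟨hx'C, hx'0⟩ := cone_parent (n₁ + |b| + |c| + 1) x' y' x y (by linarith) hdet hy'0
        hy1 hx
      obtain ⟨yn, rfl⟩ := Int.eq_ofNat_of_zero_le hy'0
      have hyn : yn < y := by exact_mod_cast hy'y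
      have hcop' : IsCoprime x' (yn : ℤ) := ⟨y, -x, by linarith⟩
      have hI := ih yn hyn x' hcop' hx'C hx'0
      obtain ⟨hB1, hE1⟩ := edgeM b c n₁ M β e x' yn x y hn₁ hM hβ he hdet hy'0 hx'0 hx'C hy1 hx
      obtain ⟨hB2, hE2⟩ := edgeM b c n₁ 1 0 c x' yn x y hn₁ le_rfl le_rfl
        (by unfold F; ring) hdet hy'0 hx'0 hx'C hy1 hx
      have hQ : Q ∣ (M * x' * x + β * (x' * y + yn * x) + b * yn * x + yn * y * e) -
          (1 * x' * x + 0 * (x' * y + yn * x) + b * yn * x + yn * y * c) := by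
        have h1 : (M * x' * x + β * (x' * y + yn * x) + b * yn * x + yn * y * e) -
          (1 * x' * x + 0 * (x' * y + yn * x) + b * yn * x + yn * y * c) =
            (M - 1) * (x' * x - yn * y * e) + β * (x' * y + yn * x + yn * y * (β + b)) := by
          have h2 : M * e = β ^ 2 + b * β + c := by rw [he]; unfold F; ring
          linear_combination ((yn : ℤ) * y) * h2
        rw [h1]
        exact dvd_add (Dvd.dvd.mul_right hQM _) (Dvd.dvd.mul_right hQβ _)
      have hL := hper _ _ hB1 hB2 hQ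
      rw [← hE1, ← hE2, hI] at hL
      have e1 : (1 : ℤ) * x' + 0 * yn = x' := by ring
      have e2 : (1 : ℤ) * x + 0 * y = x := by ring
      rw [e1, e2] at hL
      have hF : F b c x' yn ≠ 0 := by
        refine (F_pos b c x' yn hy'0 ?_ hx'0).ne'
        have : (|b| + |c| + 1) * (yn : ℤ) ≤ (n₁ + |b| + |c| + 1) * yn :=
          mul_le_mul_of_nonneg_right (by linarith) hy'0
        linarith
      have hne : Ph b c x' yn ≠ 0 := by
        rcases Ph_val b c x' yn hF with h | h <;> rw [h] <;> norm_num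
      exact mul_left_cancel₀ hne hL

end Pool.Agent.H310R2.MonicQuad
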