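import Mathlib
import Pool.Agent.H310R2.QuadPeriod

set_option autoImplicit false

namespace Pool.Agent.H310R2.MonicQuad

/-- A root of the quadratic modulo a prime `y ≡ 1 (mod Q)` that is `0` modulo `Q`. -/
lemma exists_root_mod (b c Q : ℤ) (hQ : 0 < Q) (hD0 : b ^ 2 - 4 * c ≠ 0)
    (hDQ : 4 * (b ^ 2 - 4 * c) ∣ Q) (y : ℕ) (hy : y.Prime) (hyQ : Q ∣ (y : ℤ) - 1) :
    ∃ β : ℤ, 0 ≤ β ∧ Q ∣ β ∧ (y : ℤ) ∣ F b c β 1 := by
  have h4 : 4 * (b ^ 2 - 4 * c) ∣ (y : ℤ) - 1 := hDQ.trans hyQ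
  have hdvd : 4 * (b ^ 2 - 4 * c).natAbs ∣ y - 1 := by
    have h1 := Int.natAbs_dvd_natAbs.mpr h4
    rw [Int.natAbs_mul] at h1
    have h2 : ((y : ℤ) - 1).natAbs = y - 1 := by
      have := hy.one_lt
      omega
    rw [h2] at h1
    exact h1
  have hmod : y ≡ 1 [MOD 4 * (b ^ 2 - 4 * c).natAbs] :=
    ((Nat.modEq_iff_dvd' hy.one_lt.le).mpr hdvd).symm
  obtain ⟨r, hr⟩ := exists_sqrt_mod (b ^ 2 - 4 * c) hD0 y hy hmod
  obtain ⟨k, hk⟩ : (4 : ℤ) ∣ (y : ℤ) - 1 := (Dvd.intro _ rfl).trans h4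
  set ρ : ℤ := (r - b) * (2 * k + 1) with hρ
  have hFρ : (y : ℤ) ∣ F b c ρ 1 := by
    have h1 : (y : ℤ) ∣ 4 * F b c ρ 1 := by
      have h2 : 4 * F b c ρ 1 = (r ^ 2 - (b ^ 2 - 4 * c)) +
          y * ((r - b) * (2 * r + (r - b) * y)) := by
        have h3 : (y : ℤ) = 4 * k + 1 := by linarith
        rw [hρ, h3]; unfold F; ring
      rw [h2]
      exact dvd_add hr (Dvd.intro _ rfl)
    have h2 : IsCoprime (y : ℤ) 4 := ⟨1, -k, by linarith⟩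
    exact h2.dvd_of_dvd_mul_left h1
  have hyZ : (1 : ℤ) ≤ y := by exact_mod_cast hy.one_lt.le
  refine ⟨ρ * (1 - y) + y * Q * |ρ|, ?_, ?_, ?_⟩
  · have h1 : ρ * (y - 1) ≤ |ρ| * (y - 1) :=
      mul_le_mul_of_nonneg_right (le_abs_self ρ) (by linarith)
    have h2 : (y : ℤ) * 1 * |ρ| ≤ y * Q * |ρ| :=
      mul_le_mul_of_nonneg_right (mul_le_mul_of_nonneg_left (by omega) (by linarith))
        (abs_nonneg ρ)
    nlinarith [abs_nonneg ρ]
  · refine dvd_add ?_ ?_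
    · have : ρ * (1 - (y : ℤ)) = ((y : ℤ) - 1) * (-ρ) := by ring
      rw [this]
      exact Dvd.dvd.mul_right hyQ _
    · have : (y : ℤ) * Q * |ρ| = Q * (y * |ρ|) := by ring
      rw [this]
      exact Dvd.intro _ rfl
  · have h1 : F b c (ρ * (1 - y) + y * Q * |ρ|) 1 = F b c ρ 1 +
        y * ((-ρ + Q * |ρ|) * (ρ * (1 - y) + y * Q * |ρ| + ρ + b)) := by
      unfold F; ring
    rw [h1]
    exact dvd_add hFρ (Dvd.intro _ rfl)

lemma prime_value (b c n₁ Q : ℤ) (hn₁ : 0 ≤ n₁) (hper : Per b c n₁ Q) (hQ : 0 < Q)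
    (hD0 : b ^ 2 - 4 * c ≠ 0) (hDQ : 4 * (b ^ 2 - 4 * c) ∣ Q) (y : ℕ) (hy : y.Prime)
    (hyQ : Q ∣ (y : ℤ) - 1) (x : ℤ) (hcop : IsCoprime x (y : ℤ))
    (hx : (n₁ + |b| + |c| + 1) * y ≤ x) (hx0 : 0 < x) :
    ∃ z : ℤ, n₁ ≤ z ∧ Q ∣ z - x ∧ Ph b c x y = Lq b c z := by
  obtain ⟨β, hβ0, hβQ, hβy⟩ := exists_root_mod b c Q hQ hD0 hDQ y hy hyQ
  obtain ⟨e, he⟩ := hβy
  have hyZ : (1 : ℤ) ≤ y := by exact_mod_cast hy.one_lt.le
  have h1 := dilate b c n₁ Q y β e hn₁ hper hyZ hβ0 he.symm hyQ hβQ y x hcop hx hx0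
  have hb := abs_nonneg b
  have hc := abs_nonneg c
  refine ⟨x + β, ?_, by rw [add_sub_cancel_left]; exact hβQ, ?_⟩
  · nlinarith
  · rw [← h1]
    have h2 : (y : ℤ) * x + β * y = y * (x + β) := by ring
    have h3 := Ph_scale b c y (x + β) 1 (by linarith)
    rw [mul_one] at h3
    rw [h2, h3]
    rfl

lemma F_mul' (b c X Y m : ℤ) :
    F b c X Y * F b c m 1 = F b c (X * m - c * Y) (X + b * Y + Y * m) := by
  unfold F; ring

lemma Ph_mul' (b c X Y m : ℤ) :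
    Ph b c X Y * Lq b c m = Ph b c (X * m - c * Y) (X + b * Y + Y * m) := by
  unfold Ph Lq
  rw [← lam_mul, ← Int.natAbs_mul, F_mul']

lemma cone_step (b c C X Y m : ℤ) (hC : 1 ≤ C) (hY : 0 ≤ Y) (hYX : Y ≤ X)
    (hX : 2 * C * Y ≤ X) (hm : 2 * C + 2 * |c| + 2 * C * |b| ≤ m) :
    C * (X + b * Y + Y * m) ≤ X * m - c * Y := by
  have hb := abs_nonneg b
  have hc := abs_nonneg c
  have hX0 : 0 ≤ X := by linarith
  have hm0 : 0 ≤ m := by nlinarith [mul_nonneg (by linarith : (0:ℤ) ≤ C) hb]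
  have h1 : 2 * C * Y * m ≤ X * m := mul_le_mul_of_nonneg_right hX hm0
  have h2 : c * Y ≤ |c| * X := by
    have h3 := le_abs_self c
    have h4 : c * Y ≤ |c| * Y := mul_le_mul_of_nonneg_right h3 hY
    have h5 : |c| * Y ≤ |c| * X := mul_le_mul_of_nonneg_left hYX hc
    linarith
  have h3 : C * (b * Y) ≤ C * |b| * X := by
    have h4 : b * Y ≤ |b| * X := by
      have h5 : b * Y ≤ |b| * Y := mul_le_mul_of_nonneg_right (le_abs_self b) hY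
      have h6 : |b| * Y ≤ |b| * X := mul_le_mul_of_nonneg_left hYX hb
      linarith
    have := mul_le_mul_of_nonneg_left h4 (by linarith : (0:ℤ) ≤ C)
    linarith
  have h4 : X * (2 * C + 2 * |c| + 2 * C * |b|) ≤ X * m := mul_le_mul_of_nonneg_left hm hX0
  nlinarith

lemma coprime_step (b c X Y m : ℤ) (P : ℕ) (hP : P.Prime) (hPe : X + b * Y + Y * m = P)
    (hF0 : 0 < F b c X Y) (hFP : F b c X Y < P) : IsCoprime (X * m - c * Y) (P : ℤ) := by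
  have hPZ : Prime (P : ℤ) := Nat.prime_iff_prime_int.mp hP
  refine IsCoprime.symm (hPZ.irreducible.coprime_iff_not_dvd.mpr ?_)
  intro hdvd
  have h1 : F b c X Y = X * P - (X * m - c * Y) * Y := by
    rw [← hPe]; unfold F; ring
  have h2 : (P : ℤ) ∣ F b c X Y := by
    rw [h1]
    exact dvd_sub (Dvd.intro_left _ rfl) (Dvd.dvd.mul_right hdvd _)
  exact absurd (Int.le_of_dvd hF0 h2) (by linarith)

end Pool.Agent.H310R2.MonicQuad
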