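import Mathlib
import Pool.Agent.H310R2.QuadPeriod2

set_option autoImplicit false

namespace Pool.Agent.H310R2.MonicQuad

lemma dirichlet_step (Y A Q B : ℤ) (hY : 1 ≤ Y) (hQ : 0 < Q) (h1 : IsCoprime A Y)
    (h2 : IsCoprime A Q) : ∃ (t : ℤ) (P : ℕ), P.Prime ∧ B < P ∧ A + Q * Y * t = P := by
  have hQY : 0 < Q * Y := mul_pos hQ (by linarith)
  have hcast : (((Q * Y).toNat : ℕ) : ℤ) = Q * Y := Int.toNat_of_nonneg hQY.le
  have hcop : IsCoprime A (((Q * Y).toNat : ℕ) : ℤ) := by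
    rw [hcast]; exact IsCoprime.mul_right h2 h1
  obtain ⟨P, hPB, hP, hPA⟩ := Nat.forall_exists_prime_gt_and_zmodEq B.toNat
    (q := (Q * Y).toNat) (a := A) (by omega) hcop
  rw [hcast] at hPA
  obtain ⟨t, ht⟩ := hPA.symm.dvd
  refine ⟨t, P, hP, ?_, by linarith⟩
  have : B ≤ B.toNat := Int.self_le_toNat B
  have h3 : ((B.toNat : ℕ) : ℤ) < P := by exact_mod_cast hPB
  linarith

lemma final_mul (a l1 l2 p z : ℤ) (h1 : l1 = 1 ∨ l1 = -1) (h2 : l2 = 1 ∨ l2 = -1)
    (e : a * l1 = p) (e2 : p * l2 = z) : a = l1 * l2 * z := by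
  rcases h1 with rfl | rfl <;> rcases h2 with rfl | rfl <;> linarith

lemma Lq_val (b c n : ℤ) (h : F b c n 1 ≠ 0) : Lq b c n = 1 ∨ Lq b c n = -1 :=
  lam_val _ (Int.natAbs_pos.mpr h)

/-- The value of the Liouville function at a primitive vector of the cone in terms of the values
at integers, with residues modulo `Q` determined by those of the vector. -/
lemma single (b c n₁ Q X Y m₀ : ℤ) (hn₁ : 0 ≤ n₁) (hper : Per b c n₁ Q) (hQ : 0 < Q)
    (hD0 : b ^ 2 - 4 * c ≠ 0) (hDQ : 4 * (b ^ 2 - 4 * c) ∣ Q) (hcop : IsCoprime X Y)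
    (hY : 1 ≤ Y) (hX : 4 * (n₁ + |b| + |c| + 1) * Y ≤ X) (hm₀ : IsCoprime (X + b * Y + Y * m₀) Q) :
    ∃ m n z : ℤ, n₁ ≤ m ∧ n₁ ≤ n ∧ n₁ ≤ z ∧ Q ∣ m - m₀ ∧
      Q ∣ (X * m - c * Y) + (X + b * Y + Y * m) * (n + b) - 1 ∧
      Q ∣ z - ((X * m - c * Y) * n - c * (X + b * Y + Y * m)) ∧
      Ph b c X Y = Lq b c m * Lq b c n * Lq b c z := by
  have hb := abs_nonneg b
  have hc := abs_nonneg c
  set C : ℤ := n₁ + |b| + |c| + 1 with hC
  have hC1 : 1 ≤ C := by linarith
  have hYX : Y ≤ X := by nlinarith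
  have hX0 : 0 < X := by linarith
  have hCb : 0 ≤ C * |b| := by positivity
  have hFXY : 0 < F b c X Y := F_pos b c X Y (by linarith) (by nlinarith) hX0
  -- the choice of m
  set K : ℤ := 4 * C + 2 * |c| + 4 * C * |b| + n₁ with hK
  have hcopY : IsCoprime (X + b * Y + Y * m₀) Y := by
    have h := hcop.add_mul_left_left (b + m₀)
    have e : X + Y * (b + m₀) = X + b * Y + Y * m₀ := by ring
    rwa [e] at h
  obtain ⟨t, P, hP, hPB, hPt⟩ := dirichlet_step Y (X + b * Y + Y * m₀) Q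
    (X + |b| * Y + Y * K + F b c X Y) hY hQ hcopY hm₀
  set m : ℤ := m₀ + Q * t with hm
  have hPm : X + b * Y + Y * m = P := by rw [← hPt, hm]; ring
  have hmK : K ≤ m := by
    by_contra hcon
    push Not at hcon
    have h1 : Y * m ≤ Y * K := mul_le_mul_of_nonneg_left hcon.le (by linarith)
    have h2 : b * Y ≤ |b| * Y := mul_le_mul_of_nonneg_right (le_abs_self b) (by linarith)
    linarith
  have hYK : 0 ≤ Y * K := by positivity
  have hbY : 0 ≤ |b| * Y := by positivity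
  have hFP : F b c X Y < P := by linarith
  set X' : ℤ := X * m - c * Y with hX'
  have hcop' : IsCoprime X' (P : ℤ) := coprime_step b c X Y m P hP hPm hFXY hFP
  have hcone : 2 * C * P ≤ X' := by
    rw [← hPm]
    exact cone_step b c (2 * C) X Y m (by linarith) (by linarith) hYX (by linarith)
      (by rw [hK] at hmK; linarith)
  have hP1 : (1 : ℤ) ≤ P := by exact_mod_cast hP.one_lt.le
  have hPX' : (P : ℤ) ≤ X' := by nlinarith
  have hX'0 : 0 < X' := by linarith
  have hF' : 0 < F b c X' P := F_pos b c X' P (by linarith) (by nlinarith) hX'0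
  -- the choice of n
  have hPQ : IsCoprime (P : ℤ) Q := by
    have h := hm₀.add_mul_left_left (Y * t)
    have e : X + b * Y + Y * m₀ + Q * (Y * t) = P := by rw [← hPt]; ring
    rwa [e] at h
  obtain ⟨u, v, huv⟩ := hPQ
  set y₀ : ℤ := X' * (v * Q) + u * P with hy₀
  have hy₀P : IsCoprime y₀ (P : ℤ) := by
    have h := hcop'.add_mul_left_left (u - X' * u)
    have e : X' + (P : ℤ) * (u - X' * u) = y₀ := by
      rw [hy₀]; linear_combination (-X') * huv
    rwa [e] at h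
  have hy₀Q : IsCoprime y₀ Q := by
    have h := (isCoprime_one_left (x := Q)).add_mul_left_left (X' * v - v)
    have e : 1 + Q * (X' * v - v) = y₀ := by
      rw [hy₀]; linear_combination (-1 : ℤ) * huv
    rwa [e] at h
  set K₂ : ℤ := 2 * C + 2 * |c| + 2 * C * |b| + n₁ with hK₂
  obtain ⟨s, y, hy, hyB, hys⟩ := dirichlet_step (P : ℤ) y₀ Q
    (X' + |b| * P + P * K₂ + F b c X' P) hP1 hQ hy₀P hy₀Q
  set n : ℤ := (v * X' * (-1) * 0 + (u - X' * u)) + Q * s - b with hn
  have hyn : X' + b * P + P * n = y := by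
    rw [← hys, hn, hy₀]; linear_combination (-X') * huv
  have hnK : K₂ ≤ n := by
    by_contra hcon
    push Not at hcon
    have h1 : (P : ℤ) * n ≤ P * K₂ := mul_le_mul_of_nonneg_left hcon.le (by linarith)
    have h2 : b * P ≤ |b| * P := mul_le_mul_of_nonneg_right (le_abs_self b) (by linarith)
    linarith
  have hPK : 0 ≤ (P : ℤ) * K₂ := by positivity
  have hbP : 0 ≤ |b| * (P : ℤ) := by positivity
  have hFy : F b c X' P < y := by linarith
  have hcop'' : IsCoprime (X' * n - c * P) (y : ℤ) := coprime_step b c X' P n y hy hyn hF' hFy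
  have hcone' : C * y ≤ X' * n - c * P := by
    rw [← hyn]
    exact cone_step b c C X' P n hC1 (by linarith) hPX' hcone (by rw [hK₂] at hnK; linarith)
  have hy1 : (1 : ℤ) ≤ y := by exact_mod_cast hy.one_lt.le
  have hx0 : 0 < X' * n - c * P := by nlinarith
  have hyQ : Q ∣ (y : ℤ) - 1 := by
    refine ⟨X' * v - v + P * s, ?_⟩
    rw [← hys, hy₀]; linear_combination huv
  obtain ⟨z, hz1, hz2, hz3⟩ := prime_value b c n₁ Q hn₁ hper hQ hD0 hDQ y hy hyQ
    (X' * n - c * P) hcop'' hcone' hx0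
  have hn1 : n₁ ≤ n := by linarith
  have hm1 : n₁ ≤ m := by linarith
  have hmC : (|b| + |c| + 1) * 1 ≤ m := by linarith
  have hnC : (|b| + |c| + 1) * 1 ≤ n := by linarith
  have hm0 : 0 < m := by linarith
  have hn0 : 0 < n := by linarith
  refine ⟨m, n, z, hm1, hn1, hz1, ⟨t, by rw [hm]; ring⟩, ?_, ?_, ?_⟩
  · rw [hPm]
    have e : X' + (P : ℤ) * (n + b) - 1 = y - 1 := by rw [← hyn]; ring
    rw [e]; exact hyQ
  · rw [hPm]; exact hz2
  · have h1 := Ph_mul' b c X Y m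
    rw [hPm, ← hX'] at h1
    have h2 := Ph_mul' b c X' P n
    rw [hyn, hz3] at h2
    have hFm : F b c m 1 ≠ 0 := (F_pos b c m 1 zero_le_one hmC hm0).ne'
    have hFn : F b c n 1 ≠ 0 := (F_pos b c n 1 zero_le_one hnC hn0).ne'
    exact final_mul _ _ _ _ _ (Lq_val b c m hFm) (Lq_val b c n hFn) h1 h2

/-- Two primitive vectors of the cone with the same second coordinate and first coordinates
congruent modulo `Q` have the same sign. -/
lemma pair (b c n₁ Q x x' y : ℤ) (hn₁ : 0 ≤ n₁) (hper : Per b c n₁ Q) (hQ : 0 < Q)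
    (hD0 : b ^ 2 - 4 * c ≠ 0) (hDQ : 4 * (b ^ 2 - 4 * c) ∣ Q) (hcop : IsCoprime x y)
    (hcop' : IsCoprime x' y) (hy : 1 ≤ y) (hx : 4 * (n₁ + |b| + |c| + 1) * y ≤ x)
    (hx' : 4 * (n₁ + |b| + |c| + 1) * y ≤ x') (hxx : Q ∣ x' - x) :
    Ph b c x y = Ph b c x' y := by
  -- choose m₀
  have hcopb : IsCoprime (x + b * y) y := by
    have h := hcop.add_mul_left_left b
    have e : x + y * b = x + b * y := by ring
    rwa [e] at h
  obtain ⟨m₀, P, hP, hPQ, hPe⟩ := dirichlet_step y (x + b * y) 1 Q hy one_pos hcopb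
    isCoprime_one_right
  have hm₀ : IsCoprime (x + b * y + y * m₀) Q := by
    have e : x + b * y + y * m₀ = P := by rw [← hPe]; ring
    rw [e]
    refine (Nat.prime_iff_prime_int.mp hP).irreducible.coprime_iff_not_dvd.mpr ?_
    intro h
    exact absurd (Int.le_of_dvd hQ h) (by linarith)
  obtain ⟨w, hw⟩ := hxx
  have hm₀' : IsCoprime (x' + b * y + y * m₀) Q := by
    have h := hm₀.add_mul_left_left w
    have e : x + b * y + y * m₀ + Q * w = x' + b * y + y * m₀ := by linarith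
    rwa [e] at h
  obtain ⟨m, n, z, hm1, hn1, hz1, hm, hn, hz, hPh⟩ := single b c n₁ Q x y m₀ hn₁ hper hQ hD0 hDQ
    hcop hy hx hm₀
  obtain ⟨m', n', z', hm1', hn1', hz1', hm', hn', hz', hPh'⟩ := single b c n₁ Q x' y m₀ hn₁ hper
    hQ hD0 hDQ hcop' hy hx' hm₀'
  obtain ⟨w1, hw1⟩ := hm
  obtain ⟨w2, hw2⟩ := hm'
  obtain ⟨w3, hw3⟩ := hn
  obtain ⟨w4, hw4⟩ := hn'
  obtain ⟨w5, hw5⟩ := hz
  obtain ⟨w6, hw6⟩ := hz'
  have hmm : Q ∣ m - m' := ⟨w1 - w2, by linarith⟩
  have hnn : Q ∣ n - n' := by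
    -- (x + b y + y m) (n - n') ≡ 0
    have h1 : IsCoprime Q (x + b * y + y * m) := by
      have h := hm₀.add_mul_left_left (y * w1)
      have e : x + b * y + y * m₀ + Q * (y * w1) = x + b * y + y * m := by
        linear_combination (-y) * hw1
      rw [e] at h
      exact h.symm
    refine h1.dvd_of_dvd_mul_left ?_
    refine ⟨w3 - w4 + w * m' + w * (n' + b) - (w1 - w2) * x - y * (w1 - w2) * (n' + b), ?_⟩
    have e1 : m = m' + Q * (w1 - w2) := by linarith
    have e2 : x' = x + Q * w := by linarith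
    rw [e2] at hw4
    rw [e1] at hw3 ⊢
    linear_combination hw3 - hw4
  obtain ⟨w7, hw7⟩ := hnn
  have hzz : Q ∣ z - z' := by
    have e1 : m = m' + Q * (w1 - w2) := by linarith
    have e2 : x' = x + Q * w := by linarith
    have e3 : n = n' + Q * w7 := by linarith
    rw [e2] at hw6
    rw [e1, e3] at hw5
    refine ⟨w5 - w6 + ((x * m' - c * y) * w7 + x * (w1 - w2) * (n' + Q * w7)
      - c * y * (w1 - w2)) - (w * m' * n' - c * w), ?_⟩
    linear_combination hw5 - hw6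
  rw [hPh, hPh', hper m m' hm1 hm1' hmm, hper n n' hn1 hn1' ⟨w7, hw7⟩,
    hper z z' hz1 hz1' hzz]

end Pool.Agent.H310R2.MonicQuad
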