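import Mathlib
import Pool.Agent.H310R2.QuadPeriod3

set_option autoImplicit false

namespace Pool.Agent.H310R2.MonicQuad

lemma dvd_prod_primes (T : Finset ℕ) (hT : ∀ s ∈ T, s.Prime) (r : ℕ) (hr : r.Prime) :
    (r : ℤ) ∣ ((∏ s ∈ T, s : ℕ) : ℤ) ↔ r ∈ T := by
  rw [Int.natCast_dvd_natCast, hr.prime.dvd_finsetProd_iff]
  constructor
  · rintro ⟨s, hs, hrs⟩
    rwa [(Nat.prime_dvd_prime_iff_eq hr (hT s hs)).mp hrs]
  · intro h
    exact ⟨r, h, dvd_rfl⟩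

/-- A primitive binary quadratic form represents an integer coprime to `Q`. -/
lemma form_coprime (a b' c' : ℤ) (h : ∀ r : ℕ, r.Prime → ¬ ((r : ℤ) ∣ a ∧ (r : ℤ) ∣ b' ∧ (r : ℤ) ∣ c'))
    (Q : ℕ) (hQ : Q ≠ 0) : ∃ k l : ℤ, k ≠ 0 ∧ ∀ r : ℕ, r.Prime → r ∣ Q →
      ¬ (r : ℤ) ∣ a * k ^ 2 + b' * k * l + c' * l ^ 2 := by
  classical
  set T₁ : Finset ℕ := Q.primeFactors.filter (fun r => (r : ℤ) ∣ a ∧ ¬ (r : ℤ) ∣ c') with hT₁
  set T₂ : Finset ℕ := Q.primeFactors.filter (fun r => ¬ (r : ℤ) ∣ a) with hT₂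
  have hp1 : ∀ s ∈ T₁, s.Prime := fun s hs =>
    Nat.prime_of_mem_primeFactors (Finset.mem_filter.mp hs).1
  have hp2 : ∀ s ∈ T₂, s.Prime := fun s hs =>
    Nat.prime_of_mem_primeFactors (Finset.mem_filter.mp hs).1
  refine ⟨((∏ s ∈ T₁, s : ℕ) : ℤ), ((∏ s ∈ T₂, s : ℕ) : ℤ), ?_, ?_⟩
  · have : (∏ s ∈ T₁, s) ≠ 0 := Finset.prod_ne_zero_iff.mpr (fun s hs => (hp1 s hs).ne_zero)
    exact_mod_cast this
  · intro r hr hrQ hdvd
    have hk := dvd_prod_primes T₁ hp1 r hr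
    have hl := dvd_prod_primes T₂ hp2 r hr
    set k : ℤ := ((∏ s ∈ T₁, s : ℕ) : ℤ)
    set l : ℤ := ((∏ s ∈ T₂, s : ℕ) : ℤ)
    have hmem : r ∈ Q.primeFactors := Nat.mem_primeFactors.mpr ⟨hr, hrQ, hQ⟩
    have hrZ : Prime (r : ℤ) := Nat.prime_iff_prime_int.mp hr
    by_cases ha : (r : ℤ) ∣ a
    · have hl' : ¬ (r : ℤ) ∣ l := by
        rw [hl, hT₂, Finset.mem_filter]
        exact fun hh => hh.2 ha
      by_cases hc : (r : ℤ) ∣ c'
      · have hk' : ¬ (r : ℤ) ∣ k := by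
          rw [hk, hT₁, Finset.mem_filter]
          exact fun hh => hh.2.2 hc
        have hb : ¬ (r : ℤ) ∣ b' := fun hb => h r hr ⟨ha, hb, hc⟩
        have h1 : (r : ℤ) ∣ b' * k * l := by
          have e : b' * k * l = (a * k ^ 2 + b' * k * l + c' * l ^ 2) - a * k ^ 2 - c' * l ^ 2 := by
            ring
          rw [e]
          exact dvd_sub (dvd_sub hdvd (Dvd.dvd.mul_right ha _)) (Dvd.dvd.mul_right hc _)
        rcases hrZ.dvd_or_dvd h1 with h2 | h2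
        · rcases hrZ.dvd_or_dvd h2 with h3 | h3
          · exact hb h3
          · exact hk' h3
        · exact hl' h2
      · have hk' : (r : ℤ) ∣ k := by
          rw [hk, hT₁, Finset.mem_filter]
          exact ⟨hmem, ha, hc⟩
        have h1 : (r : ℤ) ∣ c' * l ^ 2 := by
          have e : c' * l ^ 2 = (a * k ^ 2 + b' * k * l + c' * l ^ 2) - k * (a * k + b' * l) := by
            ring
          rw [e]
          exact dvd_sub hdvd (Dvd.dvd.mul_right hk' _)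
        rcases hrZ.dvd_or_dvd h1 with h2 | h2
        · exact hc h2
        · exact hl' (hrZ.dvd_of_dvd_pow h2)
    · have hl' : (r : ℤ) ∣ l := by
        rw [hl, hT₂, Finset.mem_filter]
        exact ⟨hmem, ha⟩
      have hk' : ¬ (r : ℤ) ∣ k := by
        rw [hk, hT₁, Finset.mem_filter]
        exact fun hh => ha hh.2.1
      have h1 : (r : ℤ) ∣ a * k ^ 2 := by
        have e : a * k ^ 2 = (a * k ^ 2 + b' * k * l + c' * l ^ 2) - l * (b' * k + c' * l) := by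
          ring
        rw [e]
        exact dvd_sub hdvd (Dvd.dvd.mul_right hl' _)
      rcases hrZ.dvd_or_dvd h1 with h2 | h2
      · exact ha h2
      · exact hk' (hrZ.dvd_of_dvd_pow h2)

/-- `r² ∣ p w²` with `r`, `p` prime implies `r ∣ w`. -/
lemma dvd_of_sq_dvd (p r : ℕ) (hp : p.Prime) (hr : r.Prime) (w : ℤ)
    (h : (r : ℤ) ^ 2 ∣ p * w ^ 2) : (r : ℤ) ∣ w := by
  have hrZ : Prime (r : ℤ) := Nat.prime_iff_prime_int.mp hr
  by_cases hrp : r = p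
  · subst hrp
    obtain ⟨k, hk⟩ := h
    have h1 : (r : ℤ) * w ^ 2 = r * (r * k) := by rw [hk]; ring
    have h2 : w ^ 2 = r * k := mul_left_cancel₀ hrZ.ne_zero h1
    exact hrZ.dvd_of_dvd_pow ⟨k, h2⟩
  · have h1 : (r : ℤ) ∣ p * w ^ 2 := (Dvd.intro_left _ (by ring : (r : ℤ) * r = r ^ 2)).trans h
    rcases hrZ.dvd_or_dvd h1 with h2 | h2
    · have h3 : r ∣ p := by exact_mod_cast h2
      exact absurd ((Nat.prime_dvd_prime_iff_eq hr hp).mp h3) hrp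
    · exact hrZ.dvd_of_dvd_pow h2

/-- The side condition on the second coordinate. -/
def Side (Q : ℕ) (v : ℤ) : Prop := (∀ r : ℕ, r.Prime → r ∣ Q → (r : ℤ) ∣ v → r = 2) ∧ ¬ (4 : ℤ) ∣ v

/-- Passing to a solution with coprime `u`, `v`, keeping a condition inherited by divisors. -/
lemma reduce (D : ℤ) (p : ℕ) (hp : p.Prime) (R : ℤ → Prop) (hR : ∀ v w, v ∣ w → R w → R v)
    (u v w : ℤ) (hv : v ≠ 0) (hw : w ≠ 0) (h : u ^ 2 - D * v ^ 2 = p * w ^ 2) (hRv : R v) :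
    ∃ u v w : ℤ, v ≠ 0 ∧ w ≠ 0 ∧ u ^ 2 - D * v ^ 2 = p * w ^ 2 ∧ R v ∧
      ∀ r : ℕ, r.Prime → ¬ ((r : ℤ) ∣ u ∧ (r : ℤ) ∣ v) := by
  classical
  have hex : ∃ n : ℕ, ∃ u v w : ℤ, v.natAbs = n ∧ v ≠ 0 ∧ w ≠ 0 ∧
      u ^ 2 - D * v ^ 2 = p * w ^ 2 ∧ R v := ⟨_, u, v, w, rfl, hv, hw, h, hRv⟩
  obtain ⟨u', v', w', hn, hv', hw', h', hR'⟩ := Nat.find_spec hex
  refine ⟨u', v', w', hv', hw', h', hR', ?_⟩
  rintro r hr ⟨hru, hrv⟩
  have hrw : (r : ℤ) ∣ w' := by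
    refine dvd_of_sq_dvd p r hp hr w' ?_
    rw [← h']
    exact dvd_sub (pow_dvd_pow_of_dvd hru 2) (Dvd.dvd.mul_left (pow_dvd_pow_of_dvd hrv 2) _)
  obtain ⟨u'', rfl⟩ := hru
  obtain ⟨v'', rfl⟩ := hrv
  obtain ⟨w'', rfl⟩ := hrw
  have hr0 : (r : ℤ) ≠ 0 := by exact_mod_cast hr.ne_zero
  have hv'' : v'' ≠ 0 := right_ne_zero_of_mul hv'
  have hw'' : w'' ≠ 0 := right_ne_zero_of_mul hw'
  have heq : u'' ^ 2 - D * v'' ^ 2 = p * w'' ^ 2 := by
    have : (r : ℤ) ^ 2 * (u'' ^ 2 - D * v'' ^ 2) = r ^ 2 * (p * w'' ^ 2) := by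
      linear_combination h'
    exact mul_left_cancel₀ (pow_ne_zero 2 hr0) this
  have hlt : v''.natAbs < Nat.find hex := by
    rw [← hn, Int.natAbs_mul, Int.natAbs_natCast]
    have h1 : 0 < v''.natAbs := Int.natAbs_pos.mpr hv''
    have h2 := hr.two_le
    nlinarith
  exact Nat.find_min hex hlt ⟨u'', v'', w'', rfl, hv'', hw'', heq,
    hR _ _ (Dvd.intro_left _ rfl) hR'⟩

lemma side_dvd (Q : ℕ) : ∀ v w : ℤ, v ∣ w → Side Q w → Side Q v := by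
  intro v w hvw ⟨h1, h2⟩
  exact ⟨fun r hr hrQ hrv => h1 r hr hrQ (hrv.trans hvw), fun h4 => h2 (h4.trans hvw)⟩

/-- A solution of `u² - D v² = p w²` with the side condition. -/
lemma exists_side (D : ℤ) (hD0 : D ≠ 0) (p : ℕ) (hp : p.Prime)
    (hmod : p ≡ 1 [MOD 4 * D.natAbs]) (Q : ℕ) (hQ : Q ≠ 0) (hQ2 : 2 ∣ Q) :
    ∃ u v w : ℤ, v ≠ 0 ∧ w ≠ 0 ∧ u ^ 2 - D * v ^ 2 = p * w ^ 2 ∧ Side Q v ∧
      ∀ r : ℕ, r.Prime → ¬ ((r : ℤ) ∣ u ∧ (r : ℤ) ∣ v) := by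
  have hpZ : (0 : ℤ) < p := by exact_mod_cast hp.pos
  by_cases hD : IsSquare D
  · obtain ⟨h, hh⟩ := hD
    obtain ⟨A, B, hAB, hA, hB⟩ := pell_large p hpZ (prime_not_isSquare p hp) 0
    have hh0 : h ≠ 0 := by rintro rfl; exact hD0 (by rw [hh]; ring)
    refine ⟨h * (A ^ 2 + p * B ^ 2), 1, 2 * h * A * B, one_ne_zero, ?_, ?_, ?_, ?_⟩
    · have hA0 : A ≠ 0 := by
        intro h0; rw [h0] at hA; norm_num at hA
      have hB0 : B ≠ 0 := by
        intro h0; rw [h0] at hB; norm_num at hB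
      exact mul_ne_zero (mul_ne_zero (mul_ne_zero two_ne_zero hh0) hA0) hB0
    · have e2 : (h * (A ^ 2 + p * B ^ 2)) ^ 2 - D * 1 ^ 2 =
          h ^ 2 * ((A ^ 2 + p * B ^ 2) ^ 2 - (A ^ 2 - p * B ^ 2) ^ 2) := by
        rw [hAB, hh]; ring
      rw [e2]; ring
    · refine ⟨fun r hr _ hr1 => ?_, by norm_num⟩
      have : r ∣ 1 := by exact_mod_cast hr1
      exact absurd (Nat.dvd_one.mp this) hr.one_lt.ne'
    · rintro r hr ⟨-, hr1⟩
      have : r ∣ 1 := by exact_mod_cast hr1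
      exact absurd (Nat.dvd_one.mp this) hr.one_lt.ne'
  · obtain ⟨u₀, v₀, w₀, hv₀, hw₀, -, h₀⟩ := key D hD0 p hp hmod 0
    obtain ⟨u, v, w, hv, hw, h, -, hcop⟩ := reduce D p hp (fun _ => True) (fun _ _ _ _ => trivial)
      u₀ v₀ w₀ hv₀.ne' hw₀ h₀ trivial
    -- the multiplied solution
    have hnosq2 : ∀ s t : ℤ, s ^ 2 = D * t ^ 2 → s = 0 := by
      intro s t hst
      by_contra hs0
      have ht0 : t ≠ 0 := by
        rintro rfl
        apply hs0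
        have : s ^ 2 = 0 := by rw [hst]; ring
        exact pow_eq_zero_iff (two_ne_zero) |>.mp this
      have h1 : t ^ 2 ∣ s ^ 2 := ⟨D, by rw [hst]; ring⟩
      have h2 : t ∣ s := (Int.pow_dvd_pow_iff (by norm_num)).mp h1
      obtain ⟨m, rfl⟩ := h2
      have h3 : t ^ 2 * m ^ 2 = t ^ 2 * D := by rw [← mul_pow, hst]; ring
      exact hD ⟨m, by rw [← mul_left_cancel₀ (pow_ne_zero 2 ht0) h3]; ring⟩
    have main : ∀ k l : ℤ, k ≠ 0 → v * (k ^ 2 + D * l ^ 2) + 2 * u * k * l ≠ 0 →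
        Side Q (v * (k ^ 2 + D * l ^ 2) + 2 * u * k * l) →
        ∃ u v w : ℤ, v ≠ 0 ∧ w ≠ 0 ∧ u ^ 2 - D * v ^ 2 = p * w ^ 2 ∧ Side Q v ∧
          ∀ r : ℕ, r.Prime → ¬ ((r : ℤ) ∣ u ∧ (r : ℤ) ∣ v) := by
      intro k l hk hne hside
      refine reduce D p hp (Side Q) (side_dvd Q) (u * (k ^ 2 + D * l ^ 2) + 2 * D * v * k * l)
        (v * (k ^ 2 + D * l ^ 2) + 2 * u * k * l) (w * (k ^ 2 - D * l ^ 2)) hne ?_ ?_ hside
      · refine mul_ne_zero hw (fun h0 => hk (hnosq2 k l (by linarith)))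
      · have e : (u * (k ^ 2 + D * l ^ 2) + 2 * D * v * k * l) ^ 2 -
            D * (v * (k ^ 2 + D * l ^ 2) + 2 * u * k * l) ^ 2 =
            (u ^ 2 - D * v ^ 2) * (k ^ 2 - D * l ^ 2) ^ 2 := by ring
        rw [e, h]; ring
    rcases Int.even_or_odd v with hev | hodd
    · obtain ⟨v₁, hv₁⟩ := hev
      obtain ⟨k, l, hk, hkl⟩ := form_coprime v₁ u (D * v₁) (by
        rintro r hr ⟨h1, h2, -⟩
        exact hcop r hr ⟨h2, by rw [hv₁]; exact dvd_add h1 h1⟩) Q hQ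
      have e : v * (k ^ 2 + D * l ^ 2) + 2 * u * k * l =
          2 * (v₁ * k ^ 2 + u * k * l + D * v₁ * l ^ 2) := by rw [hv₁]; ring
      have h2 := hkl 2 Nat.prime_two hQ2
      refine main k l hk ?_ ⟨?_, ?_⟩
      · rw [e]
        intro h0
        apply h2
        have : v₁ * k ^ 2 + u * k * l + D * v₁ * l ^ 2 = 0 := by linarith
        rw [this]; exact dvd_zero _
      · intro r hr hrQ hrv
        rw [e] at hrv
        have hrZ : Prime (r : ℤ) := Nat.prime_iff_prime_int.mp hr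
        rcases hrZ.dvd_or_dvd hrv with h3 | h3
        · have : r ∣ 2 := by exact_mod_cast h3
          exact (Nat.prime_dvd_prime_iff_eq hr Nat.prime_two).mp this
        · exact absurd h3 (hkl r hr hrQ)
      · rw [e]
        rintro ⟨t, ht⟩
        apply h2
        exact ⟨t, by push_cast; linarith⟩
    · obtain ⟨k, l, hk, hkl⟩ := form_coprime v (2 * u) (D * v) (by
        rintro r hr ⟨h1, h2, -⟩
        have hrZ : Prime (r : ℤ) := Nat.prime_iff_prime_int.mp hr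
        rcases hrZ.dvd_or_dvd h2 with h3 | h3
        · have h4 : r ∣ 2 := by exact_mod_cast h3
          have h5 := (Nat.prime_dvd_prime_iff_eq hr Nat.prime_two).mp h4
          subst h5
          exact (Int.not_even_iff_odd.mpr hodd) (even_iff_two_dvd.mpr h1)
        · exact hcop r hr ⟨h3, h1⟩) Q hQ
      have e : v * (k ^ 2 + D * l ^ 2) + 2 * u * k * l =
          v * k ^ 2 + 2 * u * k * l + D * v * l ^ 2 := by ring
      have h2 := hkl 2 Nat.prime_two hQ2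
      refine main k l hk ?_ ⟨?_, ?_⟩
      · rw [e]
        intro h0
        apply h2
        rw [h0]; exact dvd_zero _
      · intro r hr hrQ hrv
        rw [e] at hrv
        exact absurd hrv (hkl r hr hrQ)
      · rw [e]
        rintro ⟨t, ht⟩
        apply h2
        exact ⟨2 * t, by rw [ht]; push_cast; ring⟩

/-- Solutions with the side condition and large ratio. -/
lemma exists_big (D : ℤ) (hD0 : D ≠ 0) (p : ℕ) (hp : p.Prime)
    (hmod : p ≡ 1 [MOD 4 * D.natAbs]) (Q : ℕ) (hQ : Q ≠ 0) (hQ2 : 2 ∣ Q) (R : ℤ) :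
    ∃ u v w : ℤ, 0 < v ∧ 0 < w ∧ R * v ≤ u ∧ u ^ 2 - D * v ^ 2 = p * w ^ 2 ∧ Side Q v ∧
      ∀ r : ℕ, r.Prime → ¬ ((r : ℤ) ∣ u ∧ (r : ℤ) ∣ v) := by
  obtain ⟨u, v, w, hv, hw, h, hside, hcop⟩ := exists_side D hD0 p hp hmod Q hQ hQ2
  have hpZ : (0 : ℤ) < p := by exact_mod_cast hp.pos
  obtain ⟨A, B, hAB, hA, hB⟩ := pell_large p hpZ (prime_not_isSquare p hp)
    (R.natAbs * v.natAbs)
  have hRn : R ≤ |R| := le_abs_self R
  have hw1 : 1 ≤ |w| := Int.one_le_abs hw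
  have hv1 : 1 ≤ |v| := Int.one_le_abs hv
  push_cast at hA hB
  have hRv : 0 ≤ |R| * |v| := by positivity
  have h1 : 0 ≤ |u| * B := mul_nonneg (abs_nonneg _) (by linarith)
  have h2 : 0 < |w| * A := mul_pos (by linarith) (by linarith)
  have h1' : 0 ≤ |u| * A := mul_nonneg (abs_nonneg _) (by linarith)
  have heq : (|u| * A + p * |w| * B) ^ 2 - D * |v| ^ 2 = p * (|u| * B + |w| * A) ^ 2 := by
    have e : (|u| * A + p * |w| * B) ^ 2 - p * (|u| * B + |w| * A) ^ 2 =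
        (|u| ^ 2 - p * |w| ^ 2) * (A ^ 2 - p * B ^ 2) := by ring
    rw [hAB, sq_abs, sq_abs] at e
    have e2 : D * |v| ^ 2 = u ^ 2 - p * w ^ 2 := by rw [sq_abs]; linarith
    rw [e2]
    linarith
  refine ⟨|u| * A + p * |w| * B, |v|, |u| * B + |w| * A, by linarith, by linarith, ?_, heq,
    side_dvd Q |v| v ((abs_dvd v v).mpr dvd_rfl) hside, ?_⟩
  · have h2 : R * |v| ≤ |R| * |v| := mul_le_mul_of_nonneg_right hRn (abs_nonneg _)
    have h3 : 1 ≤ (p : ℤ) * |w| := by nlinarith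
    have h4 : 1 * B ≤ p * |w| * B := mul_le_mul_of_nonneg_right h3 (by linarith)
    linarith
  · rintro r hr ⟨hr1, hr2⟩
    have hrw : (r : ℤ) ∣ |u| * B + |w| * A := by
      refine dvd_of_sq_dvd p r hp hr _ ?_
      rw [← heq]
      exact dvd_sub (pow_dvd_pow_of_dvd hr1 2) (Dvd.dvd.mul_left (pow_dvd_pow_of_dvd hr2 2) _)
    have hru : (r : ℤ) ∣ |u| := by
      have e : |u| = (|u| * A + p * |w| * B) * A - (|u| * B + |w| * A) * (p * B) := by
        linear_combination (-|u|) * hAB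
      rw [e]
      exact dvd_sub (Dvd.dvd.mul_right hr1 _) (Dvd.dvd.mul_right hrw _)
    exact hcop r hr ⟨(dvd_abs _ _).mp hru, (dvd_abs _ _).mp hr2⟩

end Pool.Agent.H310R2.MonicQuad
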