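import Mathlib
import Pool.Agent.H310R2.QuadPeriod4

set_option autoImplicit false

namespace Pool.Agent.H310R2.MonicQuad

lemma isCoprime_of_primes (a b : ℤ) (h : ∀ r : ℕ, r.Prime → ¬ ((r : ℤ) ∣ a ∧ (r : ℤ) ∣ b)) :
    IsCoprime a b := by
  rw [Int.isCoprime_iff_gcd_eq_one]
  by_contra hcon
  obtain ⟨r, hr, hrd⟩ := Nat.exists_prime_and_dvd hcon
  have h1 : (r : ℤ) ∣ (Int.gcd a b : ℤ) := by exact_mod_cast hrd
  exact h r hr ⟨h1.trans (Int.gcd_dvd_left _ _), h1.trans (Int.gcd_dvd_right _ _)⟩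

/-- The odd (or halved) part of the second coordinate. -/
lemma side_part (Q : ℕ) (v w : ℤ) (hside : Side Q v)
    (hcop : ∀ r : ℕ, r.Prime → ¬ ((r : ℤ) ∣ v ∧ (r : ℤ) ∣ w)) :
    ∃ v₁ : ℤ, 2 * v ∣ 4 * v₁ ∧ IsCoprime v₁ ((Q : ℤ) * w ^ 2) := by
  obtain ⟨h1, h2⟩ := hside
  rcases Int.even_or_odd v with hev | hodd
  · obtain ⟨v₁, hv₁⟩ := hev
    refine ⟨v₁, ⟨1, by rw [hv₁]; ring⟩, IsCoprime.mul_right ?_ (IsCoprime.pow_right ?_)⟩
    · refine isCoprime_of_primes _ _ ?_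
      rintro r hr ⟨hr1, hr2⟩
      have hr3 : r = 2 := h1 r hr (by exact_mod_cast hr2) (by rw [hv₁]; exact dvd_add hr1 hr1)
      subst hr3
      obtain ⟨t, ht⟩ := hr1
      exact h2 ⟨t, by rw [hv₁, ht]; push_cast; ring⟩
    · refine isCoprime_of_primes _ _ ?_
      rintro r hr ⟨hr1, hr2⟩
      exact hcop r hr ⟨by rw [hv₁]; exact dvd_add hr1 hr1, hr2⟩
  · refine ⟨v, ⟨2, by ring⟩, IsCoprime.mul_right ?_ (IsCoprime.pow_right ?_)⟩
    · refine isCoprime_of_primes _ _ ?_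
      rintro r hr ⟨hr1, hr2⟩
      have hr3 : r = 2 := h1 r hr (by exact_mod_cast hr2) hr1
      subst hr3
      exact (Int.not_even_iff_odd.mpr hodd) (even_iff_two_dvd.mpr hr1)
    · exact isCoprime_of_primes _ _ hcop

/-- The values of the Liouville function at a monic quadratic polynomial with nonzero
discriminant are not eventually periodic. -/
theorem not_per (b c n₁ : ℤ) (Q : ℕ) (hn₁ : 0 ≤ n₁) (hQ : 0 < Q)
    (hD0 : b ^ 2 - 4 * c ≠ 0) (hDQ : 4 * (b ^ 2 - 4 * c) ∣ (Q : ℤ))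
    (hper : Per b c n₁ Q) : False := by
  have hQZ : (0 : ℤ) < Q := by exact_mod_cast hQ
  have hb := abs_nonneg b
  have hc := abs_nonneg c
  have hQ2 : 2 ∣ Q := by
    have h1 : (2 : ℤ) ∣ Q := (Dvd.intro (2 * (b ^ 2 - 4 * c)) (by ring)).trans hDQ
    exact_mod_cast h1
  -- the prime
  obtain ⟨p, hp, -, hmodp⟩ := Nat.exists_prime_gt_modEq_one (k := 4 * Q) 1 (by positivity)
  have hp1 := hp.one_lt
  have hdvdp : 4 * Q ∣ p - 1 := (Nat.modEq_iff_dvd' hp1.le).mp hmodp.symm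
  obtain ⟨P', hP'⟩ := hdvdp
  have hP'Z : (p : ℤ) - 1 = 4 * Q * P' := by
    have : ((p - 1 : ℕ) : ℤ) = ((4 * Q * P' : ℕ) : ℤ) := by rw [hP']
    rw [Nat.cast_sub hp1.le] at this
    push_cast at this
    exact this
  have hmod : p ≡ 1 [MOD 4 * (b ^ 2 - 4 * c).natAbs] := by
    refine ((Nat.modEq_iff_dvd' hp1.le).mpr ?_).symm
    have h1 : 4 * (b ^ 2 - 4 * c).natAbs ∣ Q := by
      have := Int.natAbs_dvd_natAbs.mpr hDQ
      rw [Int.natAbs_mul, Int.natAbs_natCast] at this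
      exact this
    rw [hP']
    exact Dvd.dvd.mul_right (Dvd.dvd.mul_left h1 4) P'
  set C : ℤ := 4 * (n₁ + |b| + |c| + 1) with hC
  obtain ⟨U, V, w, hV, hw, hR, heq, hside, hcop⟩ := exists_big (b ^ 2 - 4 * c) hD0 p hp hmod Q
    hQ.ne' hQ2 (2 * C + |b|)
  have hpZ : (0 : ℤ) < p := by exact_mod_cast hp.pos
  have hpp : Prime (p : ℤ) := Nat.prime_iff_prime_int.mp hp
  -- coprimality of V and w
  have hcopVw : ∀ r : ℕ, r.Prime → ¬ ((r : ℤ) ∣ V ∧ (r : ℤ) ∣ w) := by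
    rintro r hr ⟨hr1, hr2⟩
    have hrZ : Prime (r : ℤ) := Nat.prime_iff_prime_int.mp hr
    have h1 : (r : ℤ) ∣ U ^ 2 := by
      have e : U ^ 2 = (b ^ 2 - 4 * c) * V ^ 2 + p * w ^ 2 := by linarith
      rw [e]
      exact dvd_add (Dvd.dvd.mul_left (Dvd.dvd.pow hr1 two_ne_zero) _)
        (Dvd.dvd.mul_left (Dvd.dvd.pow hr2 two_ne_zero) _)
    exact hcop r hr ⟨hrZ.dvd_of_dvd_pow h1, hr1⟩
  obtain ⟨v₁, hv₁, hcopv₁⟩ := side_part Q V w hside hcopVw
  obtain ⟨s, t, hst⟩ := hcopv₁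
  -- Claim A
  have claimA : ∀ e : ℤ, e ∣ 2 * V → e ∣ ((p : ℤ) - 1) * w ^ 2 → e * Q ∣ (p : ℤ) - 1 := by
    intro e he1 he2
    have h1 : e ∣ 4 * v₁ := he1.trans hv₁
    have h2 : e ∣ 4 * P' := by
      have e1 : (4 : ℤ) * P' = (4 * v₁) * (s * P') + (((p : ℤ) - 1) * w ^ 2) * t := by
        rw [hP'Z]
        linear_combination (-4 * (P' : ℤ)) * hst
      rw [e1]
      exact dvd_add (Dvd.dvd.mul_right h1 _) (Dvd.dvd.mul_right he2 _)
    rw [hP'Z]
    have e2 : (4 : ℤ) * Q * P' = (4 * P') * Q := by ring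
    rw [e2]
    exact mul_dvd_mul_right h2 _
  -- Claim B
  have claimB : ∀ e : ℤ, e ∣ U - b * V + w → e ∣ 2 * V → e ∣ ((p : ℤ) - 1) * w ^ 2 := by
    intro e h1 h2
    have e1 : ((p : ℤ) - 1) * w ^ 2 = (U - b * V + w) * (U - b * V + w + 2 * b * V - 2 * w) +
        (2 * V) * (-(b * w) + 2 * c * V) := by
      linear_combination (-1 : ℤ) * heq
    rw [e1]
    exact dvd_add (Dvd.dvd.mul_right h1 _) (Dvd.dvd.mul_right h2 _)
  -- Claim C
  have hpV : IsCoprime (2 * V) (p : ℤ) := by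
    refine IsCoprime.symm (hpp.irreducible.coprime_iff_not_dvd.mpr ?_)
    intro h
    rcases hpp.dvd_or_dvd h with h1 | h1
    · have h2 : p ∣ 2 := by exact_mod_cast h1
      have h3 := (Nat.prime_dvd_prime_iff_eq hp Nat.prime_two).mp h2
      have h4 : 4 ∣ p - 1 := ⟨Q * P', by rw [hP']; ring⟩
      omega
    · have h2 : (p : ℤ) ∣ U ^ 2 := by
        have e : U ^ 2 = (b ^ 2 - 4 * c) * V ^ 2 + p * w ^ 2 := by linarith
        rw [e]
        exact dvd_add (Dvd.dvd.mul_left (Dvd.dvd.pow h1 two_ne_zero) _) (Dvd.intro _ rfl)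
      exact hcop p hp ⟨hpp.dvd_of_dvd_pow h2, h1⟩
  have claimC : ∀ e : ℤ, e ∣ U - b * V + p * w → e ∣ 2 * V → e ∣ ((p : ℤ) - 1) * w ^ 2 := by
    intro e h1 h2
    have e1 : (p : ℤ) * (((p : ℤ) - 1) * w ^ 2) =
        -((U - b * V + p * w) * (U - b * V + p * w + 2 * b * V - 2 * p * w) +
        (2 * V) * (-(b * p * w) + 2 * c * V)) := by
      linear_combination heq
    have h3 : e ∣ (p : ℤ) * (((p : ℤ) - 1) * w ^ 2) := by
      rw [e1]
      exact (dvd_add (Dvd.dvd.mul_right h1 _) (Dvd.dvd.mul_right h2 _)).neg_right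
    exact (IsCoprime.of_isCoprime_of_dvd_left hpV h2).dvd_of_dvd_mul_left h3
  -- the gcd
  set g : ℤ := (Int.gcd (U - b * V + w) (2 * V) : ℤ) with hg
  have hg1 : g ∣ U - b * V + w := Int.gcd_dvd_left _ _
  have hg2 : g ∣ 2 * V := Int.gcd_dvd_right _ _
  have hgpos : 0 < g := by
    rw [hg]
    have : Int.gcd (U - b * V + w) (2 * V) ≠ 0 := by
      intro h0
      rw [Int.gcd_eq_zero_iff] at h0
      linarith [h0.2]
    exact_mod_cast Nat.pos_of_ne_zero this
  have hgQ := claimA g hg2 (claimB g hg1 hg2)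
  obtain ⟨q, hq⟩ := hgQ
  have hx'e : U - b * V + p * w = (U - b * V + w) + g * (Q * q * w) := by
    linear_combination w * hq
  obtain ⟨x, hx⟩ := hg1
  obtain ⟨y, hy⟩ := hg2
  set x' : ℤ := x + Q * q * w with hx'
  have hx'g : U - b * V + p * w = g * x' := by rw [hx'e, hx, hx']; ring
  have hcopxy : IsCoprime x y := by
    obtain ⟨a, d, had⟩ := Int.gcd_dvd_iff.mp (dvd_refl (Int.gcd (U - b * V + w) (2 * V)))
    refine ⟨a, d, ?_⟩
    have h1 : g * (a * x + d * y) = g * 1 := by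
      have h2 : g = (U - b * V + w) * a + (2 * V) * d := by rw [hg]; exact had
      rw [hx, hy] at h2
      linarith
    exact mul_left_cancel₀ hgpos.ne' h1
  have hcopx'y : IsCoprime x' y := by
    refine isCoprime_of_primes _ _ ?_
    rintro r hr ⟨hr1, hr2⟩
    have h1 : g * r ∣ U - b * V + p * w := by rw [hx'g]; exact mul_dvd_mul_left g hr1
    have h2 : g * r ∣ 2 * V := by rw [hy]; exact mul_dvd_mul_left g hr2
    have h3 := claimA _ h2 (claimC _ h1 h2)
    have h4 : g * r ∣ (p : ℤ) - 1 := (Dvd.intro _ rfl).trans h3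
    have h5 : g * r ∣ U - b * V + w := by
      have e : U - b * V + w = (U - b * V + p * w) - ((p : ℤ) - 1) * w := by ring
      rw [e]
      exact dvd_sub h1 (Dvd.dvd.mul_right h4 _)
    have h6 : g * r ∣ g := Int.dvd_coe_gcd h5 h2
    have h7 : g * r ≤ g := Int.le_of_dvd hgpos h6
    have h8 : (2 : ℤ) ≤ r := by exact_mod_cast hr.two_le
    nlinarith
  -- the cone conditions
  have hC4 : 4 ≤ C := by rw [hC]; linarith
  have hbV : b * V ≤ |b| * V := mul_le_mul_of_nonneg_right (le_abs_self b) hV.le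
  have hypos : 0 < y := by
    have : 0 < g * y := by rw [← hy]; linarith
    exact (mul_pos_iff_of_pos_left hgpos).mp this
  have hcone : C * y ≤ x := by
    have h1 : g * (C * y) ≤ g * x := by
      rw [← hx]
      have : g * (C * y) = C * (2 * V) := by rw [hy]; ring
      rw [this]
      nlinarith
    exact le_of_mul_le_mul_left h1 hgpos
  have hcone' : C * y ≤ x' := by
    have h1 : g * (C * y) ≤ g * x' := by
      rw [← hx'g]
      have : g * (C * y) = C * (2 * V) := by rw [hy]; ring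
      rw [this]
      have h2 : w ≤ p * w := by nlinarith
      nlinarith
    exact le_of_mul_le_mul_left h1 hgpos
  have hpair := pair b c n₁ Q x x' y hn₁ hper hQZ hD0 hDQ hcopxy hcopx'y (by omega) hcone hcone'
    ⟨q * w, by rw [hx']; ring⟩
  -- the norm relation
  have hnorm : F b c x' y = p * F b c x y := by
    have h1 : g ^ 2 * F b c x' y = g ^ 2 * (p * F b c x y) := by
      have e1 : g ^ 2 * F b c x' y = F b c (g * x') (g * y) := by unfold F; ring
      have e2 : g ^ 2 * (p * F b c x y) = p * F b c (g * x) (g * y) := by unfold F; ring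
      rw [e1, e2, ← hx'g, ← hx, ← hy]
      unfold F
      linear_combination (1 - (p : ℤ)) * heq
    exact mul_left_cancel₀ (pow_ne_zero 2 hgpos.ne') h1
  have hx0 : 0 < x := by nlinarith
  have hF : 0 < F b c x y := F_pos b c x y hypos.le (by nlinarith) hx0
  have hlp : lam p = -1 := by
    unfold lam
    rw [if_neg hp.ne_zero, ArithmeticFunction.cardFactors_apply_prime hp, pow_one]
  have hneg : Ph b c x' y = - Ph b c x y := by
    unfold Ph
    rw [hnorm, Int.natAbs_mul, Int.natAbs_natCast, lam_mul, hlp]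
    ring
  rw [hneg] at hpair
  rcases Ph_val b c x y hF.ne' with h | h <;> rw [h] at hpair <;> norm_num at hpair

end Pool.Agent.H310R2.MonicQuad
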