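import Mathlib
import Pool.Agent.H310R2.QuadPeriod5

set_option autoImplicit false

namespace Pool.Agent.H310R2.MonicQuad

/-- The sequence `λ(|n² + b n + c|)` is not eventually periodic. -/
theorem not_eventually_periodic (b c : ℤ) (hD : b ^ 2 - 4 * c ≠ 0) (N q : ℤ) (hq : 0 < q)
    (h : ∀ n : ℤ, N ≤ n → Lq b c (n + q) = Lq b c n) : False := by
  have hd : 0 < (b ^ 2 - 4 * c).natAbs := Int.natAbs_pos.mpr hD
  have hstep : ∀ k : ℕ, ∀ n : ℤ, N ≤ n → Lq b c (n + k * q) = Lq b c n := by
    intro k
    induction k with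
    | zero => intro n _; simp
    | succ k ih =>
      intro n hn
      have h1 : n + ((k + 1 : ℕ) : ℤ) * q = (n + k * q) + q := by push_cast; ring
      rw [h1, h _ (by have : 0 ≤ (k : ℤ) * q := by positivity
                      linarith), ih n hn]
  refine not_per b c (max N 0) (4 * (b ^ 2 - 4 * c).natAbs * q.toNat) (le_max_right _ _)
    (by have : 0 < q.toNat := by omega
        positivity) hD ?_ ?_
  · push_cast
    refine Dvd.dvd.mul_right (mul_dvd_mul_left 4 ((dvd_abs _ _).mpr dvd_rfl)) _
  · intro m n hm hn hmn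
    have hm' := (le_max_left N 0).trans hm
    have hn' := (le_max_left N 0).trans hn
    obtain ⟨k, hk⟩ := hmn
    have hqZ : ((q.toNat : ℕ) : ℤ) = q := Int.toNat_of_nonneg hq.le
    push_cast at hk
    rw [hqZ] at hk
    rcases le_total 0 k with hk0 | hk0
    · obtain ⟨k', rfl⟩ := Int.eq_ofNat_of_zero_le hk0
      have := hstep (4 * (b ^ 2 - 4 * c).natAbs * k') n hn'
      rw [← this]
      congr 1
      push_cast
      linarith
    · obtain ⟨k', hk'⟩ := Int.eq_ofNat_of_zero_le (neg_nonneg.mpr hk0)
      have := hstep (4 * (b ^ 2 - 4 * c).natAbs * k') m hm'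
      rw [← this]
      congr 1
      have hk'' : k = -(k' : ℤ) := by linarith
      rw [hk''] at hk
      push_cast
      linarith

/-- A `±1` sequence satisfying a multiplicative recurrence is eventually periodic. -/
lemma periodic_of_prod (x : ℕ → ℤ) (hx : ∀ n, x n = 1 ∨ x n = -1) (S : Finset ℕ)
    (hS : S.Nonempty) (ε : ℤ) (h : ∀ n, ∏ i ∈ S, x (n + i) = ε) :
    ∃ N q : ℕ, 0 < q ∧ ∀ n, N ≤ n → x (n + q) = x n := by
  classical
  set k := S.max' hS with hk
  let W : ℕ → (Fin k → Bool) := fun n i => decide (x (n + i) = 1)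
  obtain ⟨n₀, n₁, hne, hW⟩ := Finite.exists_ne_map_eq_of_infinite W
  -- wlog n₀ < n₁
  have main : ∀ n₀ n₁ : ℕ, n₀ < n₁ → W n₀ = W n₁ →
      ∃ N q : ℕ, 0 < q ∧ ∀ n, N ≤ n → x (n + q) = x n := by
    intro n₀ n₁ hlt hW
    have claim : ∀ j, x (n₀ + j) = x (n₁ + j) := by
      intro j
      induction j using Nat.strong_induction_on with
      | _ j ih =>
        rcases lt_or_ge j k with hj | hj
        · have h1 := congrFun hW ⟨j, hj⟩
          simp only [W] at h1
          have h2 : x (n₀ + j) = 1 ↔ x (n₁ + j) = 1 := by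
            simpa using h1
          rcases hx (n₀ + j) with h3 | h3 <;> rcases hx (n₁ + j) with h4 | h4
          · rw [h3, h4]
          · exact absurd (h2.mp h3) (by rw [h4]; norm_num)
          · exact absurd (h2.mpr h4) (by rw [h3]; norm_num)
          · rw [h3, h4]
        · obtain ⟨t, rfl⟩ := Nat.exists_eq_add_of_le hj
          have hkS : k ∈ S := S.max'_mem hS
          have e0 := h (n₀ + t)
          have e1 := h (n₁ + t)
          rw [← Finset.mul_prod_erase S _ hkS] at e0 e1
          have hprod : ∏ i ∈ S.erase k, x (n₀ + t + i) = ∏ i ∈ S.erase k, x (n₁ + t + i) := by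
            refine Finset.prod_congr rfl (fun i hi => ?_)
            have hik : i < k := lt_of_le_of_ne (S.le_max' i (Finset.mem_of_mem_erase hi))
              (Finset.ne_of_mem_erase hi)
            have := ih (t + i) (by omega)
            rw [add_assoc, add_assoc]
            exact this
          have hP : ∏ i ∈ S.erase k, x (n₁ + t + i) ≠ 0 := by
            refine Finset.prod_ne_zero_iff.mpr (fun i _ => ?_)
            rcases hx (n₁ + t + i) with h3 | h3 <;> rw [h3] <;> norm_num
          rw [hprod, ← e1] at e0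
          have := mul_right_cancel₀ hP e0
          have a0 : n₀ + t + k = n₀ + (k + t) := by ring
          have a1 : n₁ + t + k = n₁ + (k + t) := by ring
          rw [a0, a1] at this
          exact this
    refine ⟨n₀, n₁ - n₀, by omega, fun n hn => ?_⟩
    obtain ⟨j, rfl⟩ := Nat.exists_eq_add_of_le hn
    have : n₀ + j + (n₁ - n₀) = n₁ + j := by omega
    rw [this, claim j]
  rcases lt_or_gt_of_ne hne with h1 | h1
  · exact main n₀ n₁ h1 hW
  · exact main n₁ n₀ h1 hW.symm

/-- Products of distinct shifts of a monic quadratic: the Liouville function is not eventually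
constant. -/
theorem shifts_not_const (D : ℤ) (hD : D ≠ 0) (T : Finset (ℤ × ℤ)) (hT : T.Nonempty)
    (hTD : ∀ t ∈ T, t.1 ^ 2 - 4 * t.2 = D) (ε N : ℤ)
    (h : ∀ n : ℤ, N ≤ n → ∏ t ∈ T, Lq t.1 t.2 n = ε) : False := by
  classical
  obtain ⟨t₀, ht₀⟩ := hT
  set b := t₀.1 with hb
  set c := t₀.2 with hc
  have hDbc : b ^ 2 - 4 * c = D := hTD t₀ ht₀
  let σ : ℤ × ℤ → ℤ := fun t => (t.1 - b) / 2
  have hσ : ∀ t ∈ T, t.1 = b + 2 * σ t := by
    intro t ht
    have h1 := hTD t ht
    have h2 : Even (t.1 - b) := by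
      have h3 : t.1 ^ 2 - b ^ 2 = 4 * (t.2 - c) := by linarith
      have h4 : Even ((t.1 - b) * (t.1 + b)) := ⟨2 * (t.2 - c), by linarith⟩
      rcases Int.even_mul.mp h4 with h5 | h5
      · exact h5
      · have : t.1 - b = (t.1 + b) - 2 * b := by ring
        rw [this]
        exact h5.sub (even_two_mul b)
    obtain ⟨k, hk⟩ := h2
    have : σ t = k := by
      simp only [σ]
      omega
    rw [this]; linarith
  have hval : ∀ t ∈ T, ∀ n : ℤ, Lq t.1 t.2 n = Lq b c (n + σ t) := by
    intro t ht n
    unfold Lq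
    congr 2
    have h1 := hσ t ht
    have h2 := hTD t ht
    have h3 : 4 * t.2 = (b + 2 * σ t) ^ 2 - (b ^ 2 - 4 * c) := by rw [← h1, hDbc]; linarith
    have h4 : t.2 = σ t ^ 2 + b * σ t + c := by linarith [h3]
    unfold F
    rw [h1, h4]; ring
  -- nonnegative shifts
  set M : ℤ := ∑ t ∈ T, |σ t| with hM
  have hMt : ∀ t ∈ T, 0 ≤ σ t + M := by
    intro t ht
    have h1 : |σ t| ≤ M := Finset.single_le_sum (f := fun t => |σ t|) (fun _ _ => abs_nonneg _) ht
    have h2 := neg_abs_le (σ t)
    linarith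
  have hM0 : 0 ≤ M := Finset.sum_nonneg (fun _ _ => abs_nonneg _)
  set A : ℤ := |N| + M + |b| + |c| + 1 with hA
  have hAb := abs_nonneg b
  have hAc := abs_nonneg c
  have hAN := abs_nonneg N
  let x : ℕ → ℤ := fun n => Lq b c (A + n)
  have hx : ∀ n, x n = 1 ∨ x n = -1 := by
    intro n
    refine Lq_val b c _ (F_pos b c (A + n) 1 zero_le_one ?_ ?_).ne'
    · have : (0 : ℤ) ≤ n := by positivity
      linarith
    · have : (0 : ℤ) ≤ n := by positivity
      linarith
  have hinj : Set.InjOn (fun t => (σ t + M).toNat) T := by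
    intro s hs t ht hst
    simp only at hst
    have h1 := hMt s hs
    have h2 := hMt t ht
    have h3 : σ s = σ t := by omega
    have h4 : s.1 = t.1 := by rw [hσ s hs, hσ t ht, h3]
    have h5 : s.2 = t.2 := by
      have h6 := hTD s hs
      have h7 := hTD t ht
      rw [h4] at h6
      linarith
    exact Prod.ext h4 h5
  obtain ⟨N₁, q, hq, hper⟩ := periodic_of_prod x hx (T.image (fun t => (σ t + M).toNat))
    ⟨_, Finset.mem_image_of_mem _ ht₀⟩ ε (by
      intro n
      rw [Finset.prod_image hinj]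
      rw [← h (A + n + M) (by
        have h1 : (0 : ℤ) ≤ n := by positivity
        have h2 := le_abs_self N
        linarith)]
      refine Finset.prod_congr rfl (fun t ht => ?_)
      rw [hval t ht]
      simp only [x]
      congr 1
      push_cast
      rw [Int.toNat_of_nonneg (hMt t ht)]
      ring)
  refine not_eventually_periodic b c (by rw [hDbc]; exact hD) (A + N₁) q (by exact_mod_cast hq)
    (fun n hn => ?_)
  obtain ⟨j, hj⟩ := Int.eq_ofNat_of_zero_le (show 0 ≤ n - A by
    have : (0 : ℤ) ≤ N₁ := by positivity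
    linarith)
  have h1 := hper j (by
    have : (N₁ : ℤ) ≤ j := by rw [← hj]; linarith
    exact_mod_cast this)
  simp only [x] at h1
  have e1 : A + ((j + q : ℕ) : ℤ) = n + q := by push_cast; linarith
  have e2 : A + (j : ℤ) = n := by linarith
  rw [e1, e2] at h1
  exact h1

end Pool.Agent.H310R2.MonicQuad
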